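import Pool.Agent.J4H85.GD.Det

set_option autoImplicit false

/-! First moments in the family of the graphs with given degrees. -/

namespace Pool.Agent.J4H85.GD

open Finset Pool.Agent.H234RC Pool.Agent.TH953.RC Pool.Agent.Y395.RS Pool.Agent.Y395.RW

/-- binomial coefficients -/
theorem choose_le_exp (a t : ℕ) (ht : 1 ≤ t) :
    (a.choose t : ℝ) ≤ (Real.exp 1 * a / t) ^ t := by
  have ht0 : (0 : ℝ) < t := by exact_mod_cast ht
  have h1 : (a.choose t : ℝ) ≤ (a : ℝ) ^ t / (t.factorial : ℝ) := Nat.choose_le_pow_div t a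
  have h2 := Real.pow_div_factorial_le_exp (t : ℝ) ht0.le t
  have h3 : Real.exp (t : ℝ) = Real.exp 1 ^ t := by
    rw [← Real.exp_nat_mul, mul_one]
  rw [h3] at h2
  have h4 : (0 : ℝ) < (t.factorial : ℝ) := by exact_mod_cast t.factorial_pos
  have h5 : (a : ℝ) ^ t / (t.factorial : ℝ) = ((a : ℝ) / t) ^ t * ((t : ℝ) ^ t / t.factorial) := by
    rw [div_pow]
    field_simp
  refine h1.trans ?_
  rw [h5]
  calc ((a : ℝ) / t) ^ t * ((t : ℝ) ^ t / t.factorial) ≤ ((a : ℝ) / t) ^ t * Real.exp 1 ^ t :=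
        mul_le_mul_of_nonneg_left h2 (by positivity)
    _ = (Real.exp 1 * a / t) ^ t := by
        rw [← mul_pow]
        congr 1
        ring

section

variable {V : Type} [Fintype V] [DecidableEq V]

/-- the maps which are trivial outside `K` -/
def TK (K : Finset V) : Finset (V → V) :=
  Fintype.piFinset (fun x => if x ∈ K then (univ : Finset V) else {x})

theorem mem_TK (K : Finset V) (g : V → V) : g ∈ TK K ↔ ∀ x, x ∉ K → g x = x := by
  unfold TK
  rw [Fintype.mem_piFinset]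
  constructor
  · intro h x hx
    have := h x
    rw [if_neg hx, mem_singleton] at this
    exact this
  · intro h x
    split_ifs with hx
    · exact mem_univ _
    · rw [mem_singleton]
      exact h x hx

theorem card_TK (K : Finset V) : (TK K).card = Fintype.card V ^ K.card := by
  unfold TK
  rw [Fintype.card_piFinset]
  have h1 : ∀ x : V, (if x ∈ K then (univ : Finset V) else {x}).card =
      if x ∈ K then Fintype.card V else 1 := by
    intro x
    split_ifs
    · exact card_univ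
    · exact card_singleton _
  rw [prod_congr rfl (fun x _ => h1 x), prod_ite, prod_const, prod_const_one, mul_one]
  congr 1
  congr 1
  ext x
  simp

/-- a bound for unions -/
theorem union_bound {ι α : Type} [DecidableEq α] (I : Finset ι) (S : ι → Finset α) (T : Finset α)
    (hT : ∀ x ∈ T, ∃ i ∈ I, x ∈ S i) (b : ι → ℝ) (hb : ∀ i ∈ I, ((S i).card : ℝ) ≤ b i) :
    (T.card : ℝ) ≤ ∑ i ∈ I, b i := by
  classical
  have h1 : T ⊆ I.biUnion S := fun x hx => by
    obtain ⟨i, hi, hx⟩ := hT x hx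
    exact mem_biUnion.2 ⟨i, hi, hx⟩
  have h2 := (card_le_card h1).trans card_biUnion_le
  calc (T.card : ℝ) ≤ ((∑ i ∈ I, (S i).card : ℕ) : ℝ) := by exact_mod_cast h2
    _ = ∑ i ∈ I, ((S i).card : ℝ) := by push_cast; rfl
    _ ≤ _ := sum_le_sum hb

/-- the certificates for a large near-automorphism which moves `K` -/
def BigAt (K : Finset V) (R : Finset (Sym2 V)) : Prop :=
  ∃ τ ∈ TK K, ∃ A ∈ (tch K).powersetCard (9 * K.card / 8),
    (A ∪ A.image (Sym2.map τ)).card = 2 * (9 * K.card / 8) ∧ A ∪ A.image (Sym2.map τ) ⊆ R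

variable (dd : V → ℕ) (Δ m : ℕ) (hΔ : ∀ x, dd x ≤ Δ) (hm : ∑ x, dd x = 2 * m)
  (h8 : ∀ x, 8 ≤ dd x)

include hm h8 in
theorem m_ge : 4 * Fintype.card V ≤ m := by
  have h1 : ∑ _x : V, 8 ≤ ∑ x, dd x := sum_le_sum fun x _ => h8 x
  rw [sum_const, card_univ, smul_eq_mul, hm] at h1
  omega

include hΔ hm h8 in
/-- large near-automorphisms: one set `K` -/
theorem big_one (s : ℕ) (hs : 16 * Δ ≤ s) (hs1 : 1 ≤ s)
    (hn : 8 * Δ + 4 * Δ ^ 2 ≤ 3 * Fintype.card V) (T : Finset (Finset (Sym2 V)))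
    (hT : ∀ R ∈ T, R ∈ fam dd ∧ Big R s) :
    (T.card : ℝ) ≤
      ∑ K ∈ (univ : Finset V).powerset.filter (fun K => s ≤ K.card),
        (Fintype.card V : ℝ) ^ K.card *
        ((Real.exp 1 * Fintype.card V) * (2 * (Δ : ℝ) ^ 2 / m) ^ 2) ^ (9 * K.card / 8) *
          (fam dd).card := by
  classical
  set n := Fintype.card V with hnn
  have hm4 := m_ge dd m hm h8
  rw [← hnn] at hm4
  let S : Finset V → Finset (Finset (Sym2 V)) := fun K => (fam dd).filter (fun R => BigAt K R)
  apply union_bound _ S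
  · intro R hR
    obtain ⟨hRf, K, u, v, τ, hKs, hu, hv, hτ1, hτ2, hinj, hadj⟩ := hT R hR
    obtain ⟨hRp, hdeg⟩ := (mem_fam dd R).1 hRf
    have hb1 : ∀ x, dg R x ≤ Δ := fun x => (hdeg x).le.trans (hΔ x)
    have hb2 : ∀ x, 8 ≤ dg R x := fun x => (h8 x).trans (hdeg x).ge
    have hb3 : 6 * (9 * K.card / 8) + 4 * Δ ≤ 7 * K.card := by omega
    obtain ⟨A, hA1, hA2, hA3, hA4⟩ := big_links R hRp Δ hb1 hb2 K u v τ hu hv hτ2 hinj hadj
      (9 * K.card / 8) hb3
    have hK1 : K ∈ (univ : Finset V).powerset.filter (fun K => s ≤ K.card) :=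
      mem_filter.2 ⟨mem_powerset.2 (subset_univ _), hKs⟩
    have hA5 : A ∈ (tch K).powersetCard (9 * K.card / 8) := mem_powersetCard.2 ⟨hA1, hA2⟩
    have hex : BigAt K R := ⟨τ, (mem_TK K τ).2 hτ1, A, hA5, hA4, hA3⟩
    exact ⟨K, hK1, mem_filter.2 ⟨hRf, hex⟩⟩
  · intro K hK
    obtain ⟨-, hKs⟩ := mem_filter.1 hK
    set J := 9 * K.card / 8 with hJ
    have hKn : K.card ≤ n := card_le_univ K
    have hJK : K.card ≤ J := by omega
    have hJ1 : 1 ≤ J := by omega
    -- the number of the choices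
    let ι := (V → V) × Finset (Sym2 V)
    let I : Finset ι := TK K ×ˢ ((tch K).powersetCard J)
    let S' : ι → Finset (Finset (Sym2 V)) := fun t => if
      (t.2 ∪ t.2.image (Sym2.map t.1)).card = 2 * J then
        (fam dd).filter (fun R => t.2 ∪ t.2.image (Sym2.map t.1) ⊆ R) else ∅
    have h1 : ((S K).card : ℝ) ≤ ∑ _t ∈ I, (2 * (Δ : ℝ) ^ 2 / m) ^ (2 * J) * (fam dd).card := by
      apply union_bound I S'
      · intro R hR
        obtain ⟨hRf, τ, hτ, A, hA, hA1, hA2⟩ := mem_filter.1 hR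
        refine ⟨(τ, A), mem_product.2 ⟨hτ, hA⟩, ?_⟩
        show R ∈ if (A ∪ A.image (Sym2.map τ)).card = 2 * J then
          (fam dd).filter (fun R => A ∪ A.image (Sym2.map τ) ⊆ R) else ∅
        rw [if_pos hA1]
        exact mem_filter.2 ⟨hRf, hA2⟩
      · rintro ⟨τ, A⟩ _
        show (((if (A ∪ A.image (Sym2.map τ)).card = 2 * J then
          (fam dd).filter (fun R => A ∪ A.image (Sym2.map τ) ⊆ R) else ∅) :
            Finset (Finset (Sym2 V))).card : ℝ) ≤ _
        split_ifs with hc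
        · have h2 := cF_le dd Δ m hΔ hm (by omega) (A ∪ A.image (Sym2.map τ)) (by omega)
          rw [hc] at h2
          exact h2
        · rw [card_empty]
          push_cast
          positivity
    refine h1.trans ?_
    rw [sum_const, nsmul_eq_mul, card_product, card_TK, ← hnn, card_powersetCard]
    push_cast
    have h3 : ((tch K).card.choose J : ℝ) ≤ (Real.exp 1 * n) ^ J := by
      refine (choose_le_exp _ J hJ1).trans (pow_le_pow_left₀ (by positivity) ?_ J)
      have hJ0 : (0 : ℝ) < J := by exact_mod_cast hJ1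
      rw [div_le_iff₀ hJ0]
      have h4 : ((tch K).card : ℝ) ≤ J * n := by
        have : (tch K).card ≤ J * n := (card_tch K).trans (Nat.mul_le_mul_right _ hJK)
        exact_mod_cast this
      calc Real.exp 1 * ((tch K).card : ℝ) ≤ Real.exp 1 * (J * n) :=
            mul_le_mul_of_nonneg_left h4 (Real.exp_pos 1).le
        _ = Real.exp 1 * n * J := by ring
    have e1 : ((Real.exp 1 * n) * (2 * (Δ : ℝ) ^ 2 / m) ^ 2) ^ J =
        (Real.exp 1 * n) ^ J * (2 * (Δ : ℝ) ^ 2 / m) ^ (2 * J) := by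
      rw [mul_pow, ← pow_mul]
    rw [e1]
    have h5 : (0 : ℝ) ≤ (n : ℝ) ^ K.card := by positivity
    have h6 : (0 : ℝ) ≤ (2 * (Δ : ℝ) ^ 2 / m) ^ (2 * J) * ((fam dd).card : ℝ) := by positivity
    calc ((n : ℝ) ^ K.card * ((tch K).card.choose J : ℝ)) *
          ((2 * (Δ : ℝ) ^ 2 / m) ^ (2 * J) * ((fam dd).card : ℝ))
        ≤ ((n : ℝ) ^ K.card * (Real.exp 1 * n) ^ J) *
          ((2 * (Δ : ℝ) ^ 2 / m) ^ (2 * J) * ((fam dd).card : ℝ)) :=
          mul_le_mul_of_nonneg_right (mul_le_mul_of_nonneg_left h3 h5) h6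
      _ = _ := by ring

include hΔ hm h8 in
/-- many near twins -/
theorem twins_one (i : ℕ) (hi : 16 * i + 8 * Δ + 4 * Δ ^ 2 ≤ 12 * Fintype.card V)
    (hn1 : 1 ≤ Fintype.card V) (T : Finset (Finset (Sym2 V)))
    (hT : ∀ R ∈ T, R ∈ fam dd ∧ ∃ (I : Finset V) (g : V → V × V × V), I.card = i ∧ Ok I g ∧
      four I g ⊆ R) :
    (T.card : ℝ) ≤
      2 ^ (Fintype.card V) * ((Fintype.card V : ℝ) ^ 3 * (2 * (Δ : ℝ) ^ 2 / m) ^ 4) ^ i *
        (fam dd).card := by
  classical
  set n := Fintype.card V with hnn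
  have hm4 := m_ge dd m hm h8
  rw [← hnn] at hm4
  let ι := Σ _ : Finset V, (V → V × V × V)
  let I0 : Finset ι := ((univ : Finset V).powersetCard i).sigma
    (fun I => Pool.Agent.J4H85.RP.GG I)
  let S' : ι → Finset (Finset (Sym2 V)) := fun t => if (four t.1 t.2).card = 4 * i then
    (fam dd).filter (fun R => four t.1 t.2 ⊆ R) else ∅
  have h1 : (T.card : ℝ) ≤
      ∑ _t ∈ I0, (2 * (Δ : ℝ) ^ 2 / m) ^ (4 * i) * (fam dd).card := by
    apply union_bound I0 S'
    · intro R hR
      obtain ⟨hRf, I, g, hI, hok, hsub⟩ := hT R hR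
      -- make `g` trivial outside `I`
      let g' : V → V × V × V := fun x => if x ∈ I then g x else (x, x, x)
      have hg' : ∀ x ∈ I, g' x = g x := fun x hx => if_pos hx
      have hfour : four I g' = four I g := by
        unfold four
        apply image_congr
        rintro ⟨x, a, b⟩ ht
        have hx : x ∈ I := (mem_product.1 (mem_coe.1 ht)).1
        show s(if a then x else (g' x).1, if b then (g' x).2.1 else (g' x).2.2) =
          s(if a then x else (g x).1, if b then (g x).2.1 else (g x).2.2)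
        rw [hg' x hx]
      refine ⟨⟨I, g'⟩, mem_sigma.2 ⟨mem_powersetCard.2 ⟨subset_univ _, hI⟩,
        (Pool.Agent.J4H85.RP.mem_GG _ _).2 (fun x hx => if_neg hx)⟩, ?_⟩
      show R ∈ if (four I g').card = 4 * i then
        (fam dd).filter (fun R => four I g' ⊆ R) else ∅
      rw [hfour, if_pos (by rw [card_four I g hok, hI])]
      exact mem_filter.2 ⟨hRf, hsub⟩
    · rintro ⟨I, g⟩ _
      show (((if (four I g).card = 4 * i then
        (fam dd).filter (fun R => four I g ⊆ R) else ∅) : Finset (Finset (Sym2 V))).card : ℝ) ≤ _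
      split_ifs with hc
      · have h2 := cF_le dd Δ m hΔ hm (by omega) (four I g) (by omega)
        rw [hc] at h2
        exact h2
      · rw [card_empty]
        push_cast
        positivity
  refine h1.trans ?_
  rw [sum_const, nsmul_eq_mul]
  have h2 : (I0.card : ℝ) ≤ 2 ^ n * ((n : ℝ) ^ 3) ^ i := by
    have h3 : I0.card = ∑ I ∈ (univ : Finset V).powersetCard i, (n ^ 3) ^ i := by
      show (Finset.sigma _ _).card = _
      rw [card_sigma]
      apply sum_congr rfl
      intro I hI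
      rw [Pool.Agent.J4H85.RP.card_GG, (mem_powersetCard.1 hI).2]
    rw [h3, sum_const, smul_eq_mul, card_powersetCard, card_univ, ← hnn]
    push_cast
    apply mul_le_mul_of_nonneg_right _ (by positivity)
    have h4 : n.choose i ≤ 2 ^ n := Nat.choose_le_two_pow n i
    exact_mod_cast h4
  have h5 : (0 : ℝ) ≤ (2 * (Δ : ℝ) ^ 2 / m) ^ (4 * i) * ((fam dd).card : ℝ) := by positivity
  calc (I0.card : ℝ) * ((2 * (Δ : ℝ) ^ 2 / m) ^ (4 * i) * ((fam dd).card : ℝ))
      ≤ (2 ^ n * ((n : ℝ) ^ 3) ^ i) * ((2 * (Δ : ℝ) ^ 2 / m) ^ (4 * i) * ((fam dd).card : ℝ)) :=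
        mul_le_mul_of_nonneg_right h2 h5
    _ = _ := by
        rw [mul_pow, ← pow_mul, ← pow_mul]
        ring

omit [DecidableEq V] in
theorem card_ins [DecidableEq V] (U : Finset V) : (ins U).card ≤ U.card * U.card := by
  have h : ins U ⊆ (U ×ˢ U).image (fun p => s(p.1, p.2)) := by
    intro e he
    obtain ⟨_, h2⟩ := mem_filter.1 he
    induction e using Sym2.ind with
    | _ a b =>
      exact mem_image.2 ⟨(a, b), mem_product.2 ⟨h2 a (Sym2.mem_mk_left a b),
        h2 b (Sym2.mem_mk_right a b)⟩, rfl⟩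
  refine (card_le_card h).trans (card_image_le.trans (le_of_eq ?_))
  rw [card_product]

include hΔ hm h8 in
/-- dense sets `U` -/
theorem dense_one (s : ℕ) (hs1 : 1 ≤ s) (hs : 9 * s + 8 * Δ + 4 * Δ ^ 2 + 4 ≤ 12 * Fintype.card V)
    (T : Finset (Finset (Sym2 V)))
    (hT : ∀ R ∈ T, R ∈ fam dd ∧ ∃ U : Finset V, s ≤ U.card ∧ U.card ≤ 2 * s ∧
      9 * U.card < 8 * (R ∩ ins U).card) :
    (T.card : ℝ) ≤
      ∑ U ∈ (univ : Finset V).powerset.filter (fun U => s ≤ U.card ∧ U.card ≤ 2 * s),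
        (Real.exp 1 * (2 * s) * (2 * (Δ : ℝ) ^ 2 / m)) ^ (9 * U.card / 8 + 1) *
          (fam dd).card := by
  classical
  set n := Fintype.card V with hnn
  have hm4 := m_ge dd m hm h8
  rw [← hnn] at hm4
  let S : Finset V → Finset (Finset (Sym2 V)) := fun U => (fam dd).filter (fun R =>
    9 * U.card < 8 * (R ∩ ins U).card)
  apply union_bound _ S
  · intro R hR
    obtain ⟨hRf, U, h1, h2, h3⟩ := hT R hR
    exact ⟨U, mem_filter.2 ⟨mem_powerset.2 (subset_univ _), h1, h2⟩, mem_filter.2 ⟨hRf, h3⟩⟩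
  · intro U hU
    obtain ⟨-, hU1, hU2⟩ := mem_filter.1 hU
    set J := 9 * U.card / 8 + 1 with hJ
    have hJ1 : 1 ≤ J := by omega
    have hJU : U.card ≤ J := by omega
    let S' : Finset (Sym2 V) → Finset (Finset (Sym2 V)) := fun F =>
      (fam dd).filter (fun R => F ⊆ R)
    have h1 : ((S U).card : ℝ) ≤ ∑ _F ∈ (ins U).powersetCard J,
        (2 * (Δ : ℝ) ^ 2 / m) ^ J * (fam dd).card := by
      apply union_bound _ S'
      · intro R hR
        obtain ⟨hRf, h3⟩ := mem_filter.1 hR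
        have h4 : J ≤ (R ∩ ins U).card := by omega
        obtain ⟨F, hF, hFJ⟩ := exists_subset_card_eq h4
        exact ⟨F, mem_powersetCard.2 ⟨hF.trans inter_subset_right, hFJ⟩,
          mem_filter.2 ⟨hRf, hF.trans inter_subset_left⟩⟩
      · intro F hF
        have hFJ := (mem_powersetCard.1 hF).2
        have h2 := cF_le dd Δ m hΔ hm (by omega) F (by omega)
        rw [hFJ] at h2
        exact h2
    refine h1.trans ?_
    rw [sum_const, nsmul_eq_mul, card_powersetCard]
    have h3 : ((ins U).card.choose J : ℝ) ≤ (Real.exp 1 * (2 * s)) ^ J := by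
      refine (choose_le_exp _ J hJ1).trans (pow_le_pow_left₀ (by positivity) ?_ J)
      have hJ0 : (0 : ℝ) < J := by exact_mod_cast hJ1
      rw [div_le_iff₀ hJ0]
      have h4 : ((ins U).card : ℝ) ≤ (2 * s) * J := by
        have : (ins U).card ≤ 2 * s * J := (card_ins U).trans (Nat.mul_le_mul hU2 hJU)
        exact_mod_cast this
      calc Real.exp 1 * ((ins U).card : ℝ) ≤ Real.exp 1 * ((2 * s) * J) :=
            mul_le_mul_of_nonneg_left h4 (Real.exp_pos 1).le
        _ = Real.exp 1 * (2 * s) * J := by ring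
    have h6 : (0 : ℝ) ≤ (2 * (Δ : ℝ) ^ 2 / m) ^ J * ((fam dd).card : ℝ) := by positivity
    calc ((ins U).card.choose J : ℝ) * ((2 * (Δ : ℝ) ^ 2 / m) ^ J * ((fam dd).card : ℝ))
        ≤ (Real.exp 1 * (2 * s)) ^ J * ((2 * (Δ : ℝ) ^ 2 / m) ^ J * ((fam dd).card : ℝ)) :=
          mul_le_mul_of_nonneg_right h3 h6
      _ = _ := by
          rw [mul_pow (Real.exp 1 * (2 * (s : ℝ)))]
          ring

end

end Pool.Agent.J4H85.GD
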