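import Pool.Agent.J4H85.GD.Switch

set_option autoImplicit false

/-! Many vertices moved by near-automorphisms: one large near-automorphism, or many pairs of
vertices with two common neighbours. -/

namespace Pool.Agent.J4H85.GD

open Finset Pool.Agent.H234RC Pool.Agent.TH953.RC Pool.Agent.Y395.RS Pool.Agent.Y395.RW

section

variable {V : Type} [Fintype V] [DecidableEq V]

/-- a large near-automorphism -/
def Big (R : Finset (Sym2 V)) (s : ℕ) : Prop :=
  ∃ (K : Finset V) (u v : V) (τ : V → V), s ≤ K.card ∧ u ∉ K ∧ v ∉ K ∧ (∀ x, x ∉ K → τ x = x) ∧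
    (∀ x ∈ K, τ x ≠ x) ∧ Set.InjOn τ {z | z ≠ u ∧ z ≠ v} ∧
    ∀ x z, x ≠ u → x ≠ v → z ≠ u → z ≠ v → s(x, z) ∈ R → s(τ x, τ z) ∈ R

/-- many near twins -/
def Twins (R : Finset (Sym2 V)) (s : ℕ) : Prop :=
  ∃ (U : Finset V) (τ b1 b2 : V → V), s ≤ U.card ∧ U.card ≤ 2 * s ∧
    ∀ x ∈ U, τ x ≠ x ∧ ∀ z, z ∉ U → z ≠ b1 x → z ≠ b2 x → s(x, z) ∈ R → s(τ x, z) ∈ R

theorem det2 (R : Finset (Sym2 V)) (hR : R ⊆ pairs V) (s : ℕ) (hs : 1 ≤ s)
    (M : Finset V) (hM : ∀ x ∈ M, ¬ Rn (gr R) x) (hMs : s ≤ M.card) : Big R s ∨ Twins R s := by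
  classical
  have hadj : ∀ (φ : NAut V), IsNA (gr R) φ → ∀ x z : V, x ≠ φ.2.1 → x ≠ φ.2.2 → z ≠ φ.2.1 →
      z ≠ φ.2.2 → (s(x, z) ∈ R ↔ s(φ.1 x, φ.1 z) ∈ R) := by
    intro φ hφ x z h1 h2 h3 h4
    rw [← adj_pairs hR, ← adj_pairs hR]
    exact (hφ x z h1 h2 h3 h4).symm
  have mem_mv : ∀ (φ : NAut V) x, x ∈ mv φ ↔ x ≠ φ.2.1 ∧ x ≠ φ.2.2 ∧ φ.1 x ≠ x := by
    intro φ x
    unfold mv
    rw [mem_filter]
    exact ⟨fun h => h.2, fun h => ⟨mem_univ _, h⟩⟩
  by_cases hbig : ∃ φ : NAut V, IsNA (gr R) φ ∧ s ≤ (mv φ).card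
  · left
    obtain ⟨φ, hφ, hc⟩ := hbig
    let τ : V → V := fun x => if x ∈ mv φ then φ.1 x else x
    have t1 : ∀ x, x ∈ mv φ → τ x = φ.1 x := fun x hx => if_pos hx
    have t2 : ∀ x, x ∉ mv φ → τ x = x := fun x hx => if_neg hx
    have t3 : ∀ x, x ≠ φ.2.1 → x ≠ φ.2.2 → τ x = φ.1 x := by
      intro x h1 h2
      by_cases hx : x ∈ mv φ
      · exact t1 x hx
      · rw [t2 x hx]
        by_contra hne
        exact hx ((mem_mv φ x).2 ⟨h1, h2, fun e => hne e.symm⟩)
    refine ⟨mv φ, φ.2.1, φ.2.2, τ, hc, fun h => ((mem_mv φ _).1 h).1 rfl,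
      fun h => ((mem_mv φ _).1 h).2.1 rfl, t2, ?_, ?_, ?_⟩
    · intro x hx
      rw [t1 x hx]
      exact ((mem_mv φ x).1 hx).2.2
    · rintro x ⟨h1, h2⟩ z ⟨h3, h4⟩ hxz
      rw [t3 x h1 h2, t3 z h3 h4] at hxz
      exact φ.1.injective hxz
    · intro x z h1 h2 h3 h4 hxz
      rw [t3 x h1 h2, t3 z h3 h4]
      exact (hadj φ hφ x z h1 h2 h3 h4).1 hxz
  · right
    push Not at hbig
    have hex : ∀ x : V, ∃ φ : NAut V, x ∈ M → (IsNA (gr R) φ ∧ x ∈ mv φ) := by
      intro x
      by_cases hx : x ∈ M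
      · have h2 := hM x hx
        unfold Rn at h2
        push Not at h2
        obtain ⟨φ, hφ, h3, h4, h5⟩ := h2
        exact ⟨φ, fun _ => ⟨hφ, (mem_mv φ x).2 ⟨h3, h4, h5⟩⟩⟩
      · exact ⟨(1, x, x), fun h => absurd h hx⟩
    choose Φ hΦ using hex
    let U : Finset V → Finset V := fun X => X.biUnion (fun x => mv (Φ x))
    obtain ⟨X, hX, hmin⟩ := exists_min_image
      (M.powerset.filter (fun X => s ≤ (U X).card)) card
      ⟨M, mem_filter.2 ⟨mem_powerset.2 subset_rfl, hMs.trans (card_le_card fun x hx =>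
        mem_biUnion.2 ⟨x, hx, (hΦ x hx).2⟩)⟩⟩
    obtain ⟨hXM, hXs⟩ := mem_filter.1 hX
    rw [mem_powerset] at hXM
    have hXne : X.Nonempty := by
      rw [nonempty_iff_ne_empty]
      rintro rfl
      have : (U ∅).card = 0 := by
        show (Finset.biUnion ∅ _).card = 0
        rw [biUnion_empty, card_empty]
      omega
    obtain ⟨x0, hx0⟩ := hXne
    have hU2 : (U X).card ≤ 2 * s := by
      have h1 : (U (X.erase x0)).card < s := by
        by_contra hc
        push Not at hc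
        have h2 := hmin (X.erase x0) (mem_filter.2
          ⟨mem_powerset.2 ((erase_subset _ _).trans hXM), hc⟩)
        have h3 := card_erase_lt_of_mem hx0
        omega
      have h2 : U X ⊆ U (X.erase x0) ∪ mv (Φ x0) := by
        intro y hy
        obtain ⟨x, hx, hy⟩ := mem_biUnion.1 hy
        rw [mem_union]
        by_cases hxx : x = x0
        · right
          rw [← hxx]
          exact hy
        · left
          exact mem_biUnion.2 ⟨x, mem_erase.2 ⟨hxx, hx⟩, hy⟩
      have h3 := (card_le_card h2).trans (card_union_le _ _)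
      have h4 := hbig (Φ x0) (hΦ x0 (hXM hx0)).1
      omega
    have hch : ∀ y : V, ∃ x : V, y ∈ U X → (x ∈ X ∧ y ∈ mv (Φ x)) := by
      intro y
      by_cases hy : y ∈ U X
      · obtain ⟨x, hx, hy'⟩ := mem_biUnion.1 hy
        exact ⟨x, fun _ => ⟨hx, hy'⟩⟩
      · exact ⟨y, fun h => absurd h hy⟩
    choose c hc using hch
    refine ⟨U X, fun y => (Φ (c y)).1 y, fun y => (Φ (c y)).2.1, fun y => (Φ (c y)).2.2, hXs, hU2,
      ?_⟩
    intro y hy
    obtain ⟨hcX, hcy⟩ := hc y hy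
    have hy' := (mem_mv _ y).1 hcy
    refine ⟨hy'.2.2, ?_⟩
    intro z hzU hz1 hz2 hyz
    have hfix : (Φ (c y)).1 z = z := by
      by_contra hne
      exact hzU (mem_biUnion.2 ⟨c y, hcX, (mem_mv _ z).2 ⟨hz1, hz2, hne⟩⟩)
    have h := (hadj (Φ (c y)) (hΦ _ (hXM hcX)).1 y z hy'.1 hy'.2.1 hz1 hz2).1 hyz
    rw [hfix] at h
    exact h

/-! ### Large near-automorphisms -/

/-- the pairs which contain a vertex of `K` -/
def tch (K : Finset V) : Finset (Sym2 V) := (pairs V).filter (fun e => ∃ x ∈ K, x ∈ e)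

theorem card_tch (K : Finset V) : (tch K).card ≤ K.card * Fintype.card V := by
  have h : tch K ⊆ (K ×ˢ (univ : Finset V)).image (fun p => s(p.1, p.2)) := by
    intro e he
    obtain ⟨_, x, hx, hxe⟩ := mem_filter.1 he
    obtain ⟨y, rfl⟩ := hxe
    exact mem_image.2 ⟨(x, y), mem_product.2 ⟨hx, mem_univ _⟩, rfl⟩
  refine (card_le_card h).trans (card_image_le.trans (le_of_eq ?_))
  rw [card_product, card_univ]

/-- many edges linked to different edges -/
theorem big_links (R : Finset (Sym2 V)) (hR : R ⊆ pairs V) (Δ : ℕ) (hΔ : ∀ x, dg R x ≤ Δ)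
    (h8 : ∀ x, 8 ≤ dg R x) (K : Finset V) (u v : V) (τ : V → V) (hu : u ∉ K) (hv : v ∉ K)
    (hK : ∀ x ∈ K, τ x ≠ x) (hinj : Set.InjOn τ {z | z ≠ u ∧ z ≠ v})
    (hτ : ∀ x z, x ≠ u → x ≠ v → z ≠ u → z ≠ v → s(x, z) ∈ R → s(τ x, τ z) ∈ R) (J : ℕ)
    (hJ : 6 * J + 4 * Δ ≤ 7 * K.card) :
    ∃ A : Finset (Sym2 V), A ⊆ tch K ∧ A.card = J ∧ A ∪ A.image (Sym2.map τ) ⊆ R ∧
      (A ∪ A.image (Sym2.map τ)).card = 2 * J := by
  classical
  set f : Sym2 V → Sym2 V := Sym2.map τ with hf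
  set A0 : Finset (Sym2 V) := R.filter (fun e => (∃ x ∈ K, x ∈ e) ∧ u ∉ e ∧ v ∉ e ∧ f e ≠ e)
    with hA0
  -- the size of `A0`
  have hsize : 7 * K.card ≤ 2 * A0.card + 4 * Δ := by
    have h1 : ∀ x ∈ K, dg R x ≤ (A0.filter (fun e => x ∈ e)).card +
        (R.filter (fun e => x ∈ e ∧ (u ∈ e ∨ v ∈ e))).card + 1 := by
      intro x hx
      unfold dg
      have hsub : R.filter (fun e => x ∈ e) ⊆ (A0.filter (fun e => x ∈ e)) ∪
          (R.filter (fun e => x ∈ e ∧ (u ∈ e ∨ v ∈ e))) ∪ {s(x, τ x)} := by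
        intro e he
        obtain ⟨heR, hxe⟩ := mem_filter.1 he
        rw [mem_union, mem_union, mem_filter, mem_filter, mem_filter, mem_singleton]
        by_cases c1 : u ∈ e ∨ v ∈ e
        · exact Or.inl (Or.inr ⟨heR, hxe, c1⟩)
        · push Not at c1
          by_cases c2 : f e = e
          · right
            obtain ⟨z, rfl⟩ := hxe
            rw [hf, Sym2.map_mk] at c2
            rcases Sym2.eq_iff.1 c2 with ⟨h, _⟩ | ⟨h, _⟩
            · exact absurd h (hK x hx)
            · rw [h]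
          · exact Or.inl (Or.inl ⟨⟨heR, ⟨x, hx, hxe⟩, c1.1, c1.2, c2⟩, hxe⟩)
      have h2 := card_le_card hsub
      have h3 := card_union_le ((A0.filter (fun e => x ∈ e)) ∪
          (R.filter (fun e => x ∈ e ∧ (u ∈ e ∨ v ∈ e)))) {s(x, τ x)}
      have h4 := card_union_le (A0.filter (fun e => x ∈ e))
          (R.filter (fun e => x ∈ e ∧ (u ∈ e ∨ v ∈ e)))
      rw [card_singleton] at h3
      omega
    have hdc : ∀ B : Finset (Sym2 V), ∑ x ∈ K, (B.filter (fun e => x ∈ e)).card ≤ 2 * B.card := by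
      intro B
      calc ∑ x ∈ K, (B.filter (fun e => x ∈ e)).card
          = ∑ e ∈ B, (K.filter (fun x => x ∈ e)).card := by
            simp only [card_filter]
            rw [sum_comm]
        _ ≤ ∑ _e ∈ B, 2 := by
            apply sum_le_sum
            intro e _
            induction e using Sym2.ind with
            | _ a b =>
              have hs : K.filter (fun x => x ∈ s(a, b)) ⊆ {a, b} := by
                intro x hx
                rw [mem_insert, mem_singleton]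
                exact Sym2.mem_iff.1 (mem_filter.1 hx).2
              exact (card_le_card hs).trans card_le_two
        _ = 2 * B.card := by rw [sum_const, smul_eq_mul, mul_comm]
    have h2 : ∑ x ∈ K, (R.filter (fun e => x ∈ e ∧ (u ∈ e ∨ v ∈ e))).card ≤ 4 * Δ := by
      have e1 : ∀ x, R.filter (fun e => x ∈ e ∧ (u ∈ e ∨ v ∈ e)) =
          (R.filter (fun e => u ∈ e ∨ v ∈ e)).filter (fun e => x ∈ e) := by
        intro x
        ext e
        simp only [mem_filter]
        tauto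
      simp only [e1]
      refine (hdc _).trans ?_
      have h3 : (R.filter (fun e => u ∈ e ∨ v ∈ e)).card ≤ 2 * Δ := by
        rw [filter_or]
        have h4 := card_union_le (R.filter (fun e => u ∈ e)) (R.filter (fun e => v ∈ e))
        have h5 : (R.filter (fun e => u ∈ e)).card ≤ Δ := hΔ u
        have h6 : (R.filter (fun e => v ∈ e)).card ≤ Δ := hΔ v
        omega
      omega
    have h3 : 8 * K.card ≤ ∑ x ∈ K, dg R x := by
      calc 8 * K.card = ∑ _x ∈ K, 8 := by rw [sum_const, smul_eq_mul, mul_comm]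
        _ ≤ _ := sum_le_sum fun x _ => h8 x
    have h4 := sum_le_sum h1
    rw [sum_add_distrib, sum_add_distrib, sum_const, smul_eq_mul, mul_one] at h4
    have h5 := hdc A0
    omega
  -- the colouring
  obtain ⟨c, hc⟩ := Pool.Agent.J4H85.RP.three_col f A0 (fun a ha => (mem_filter.1 ha).2.2.2.2)
  have hcol : ∃ j : Fin 3, J ≤ (A0.filter (fun a => c a = j)).card := by
    by_contra hcon
    push Not at hcon
    have h1 : A0.card = ∑ j : Fin 3, (A0.filter (fun a => c a = j)).card :=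
      card_eq_sum_card_fiberwise (fun a _ => mem_univ _)
    rw [Fin.sum_univ_three] at h1
    have a0 := hcon 0
    have a1 := hcon 1
    have a2 := hcon 2
    omega
  obtain ⟨j, hj⟩ := hcol
  obtain ⟨A, hA, hAJ⟩ := exists_subset_card_eq hj
  have hA' : ∀ a ∈ A, a ∈ A0 ∧ c a = j := fun a ha => mem_filter.1 (hA ha)
  refine ⟨A, ?_, hAJ, ?_, ?_⟩
  · intro a ha
    have h1 := mem_filter.1 (hA' a ha).1
    exact mem_filter.2 ⟨hR h1.1, h1.2.1⟩
  · intro e he
    rcases mem_union.1 he with he | he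
    · exact (mem_filter.1 (hA' e he).1).1
    · obtain ⟨a, ha, rfl⟩ := mem_image.1 he
      have h1 := mem_filter.1 (hA' a ha).1
      obtain ⟨h2, _, h3, h4, _⟩ := h1
      induction a using Sym2.ind with
      | _ x z =>
        rw [hf, Sym2.map_mk]
        rw [Sym2.mem_iff, not_or] at h3 h4
        exact hτ x z (Ne.symm h3.1) (Ne.symm h4.1) (Ne.symm h3.2) (Ne.symm h4.2) h2
  · rw [card_union_of_disjoint, card_image_of_injOn, hAJ]
    · ring
    · intro a ha b hb hab
      obtain ⟨_, _, h3, h4, _⟩ := mem_filter.1 (hA' a ha).1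
      obtain ⟨_, _, k3, k4, _⟩ := mem_filter.1 (hA' b hb).1
      have hab' : f a = f b := hab
      clear ha hb hab
      induction a using Sym2.ind with
      | _ x z =>
        induction b using Sym2.ind with
        | _ x' z' =>
          rw [hf, Sym2.map_mk, Sym2.map_mk] at hab'
          rw [Sym2.mem_iff, not_or] at h3 h4 k3 k4
          have i1 : x ∈ {z | z ≠ u ∧ z ≠ v} := ⟨Ne.symm h3.1, Ne.symm h4.1⟩
          have i2 : z ∈ {z | z ≠ u ∧ z ≠ v} := ⟨Ne.symm h3.2, Ne.symm h4.2⟩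
          have i3 : x' ∈ {z | z ≠ u ∧ z ≠ v} := ⟨Ne.symm k3.1, Ne.symm k4.1⟩
          have i4 : z' ∈ {z | z ≠ u ∧ z ≠ v} := ⟨Ne.symm k3.2, Ne.symm k4.2⟩
          rcases Sym2.eq_iff.1 hab' with ⟨h5, h6⟩ | ⟨h5, h6⟩
          · rw [hinj i1 i3 h5, hinj i2 i4 h6]
          · rw [hinj i1 i4 h5, hinj i2 i3 h6, Sym2.eq_swap]
    · rw [disjoint_left]
      intro e he he'
      obtain ⟨a, ha, hae⟩ := mem_image.1 he'
      obtain ⟨h1, h2⟩ := hA' a ha
      obtain ⟨h3, h4⟩ := hA' e he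
      rw [← hae] at h3 h4
      exact hc a h1 h3 (h4.trans h2.symm)

/-! ### Near twins -/

/-- the edges inside `U` -/
def ins (U : Finset V) : Finset (Sym2 V) := (pairs V).filter (fun e => ∀ x ∈ e, x ∈ U)

/-- `I` with the maps `τ, z1, z2`: all relevant vertices are different -/
def Ok (I : Finset V) (g : V → V × V × V) : Prop :=
  (∀ x ∈ I, ∀ y ∈ I, (g x).1 = (g y).1 → x = y) ∧
  (∀ x ∈ I, ∀ y ∈ I, (g x).1 ≠ y) ∧
  (∀ x ∈ I, ∀ y ∈ I, (g x).2.1 ≠ y ∧ (g x).2.2 ≠ y ∧ (g x).2.1 ≠ (g y).1 ∧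
    (g x).2.2 ≠ (g y).1) ∧
  ∀ x ∈ I, (g x).2.1 ≠ (g x).2.2

/-- the four edges of every vertex of `I` -/
def four (I : Finset V) (g : V → V × V × V) : Finset (Sym2 V) :=
  (I ×ˢ ((univ : Finset Bool) ×ˢ (univ : Finset Bool))).image
    (fun t => s(if t.2.1 then t.1 else (g t.1).1, if t.2.2 then (g t.1).2.1 else (g t.1).2.2))

omit [Fintype V] in
theorem card_four (I : Finset V) (g : V → V × V × V) (h : Ok I g) :
    (four I g).card = 4 * I.card := by
  obtain ⟨h1, h2, h3, h4⟩ := h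
  unfold four
  rw [card_image_of_injOn]
  · rw [card_product, card_product, card_univ, Fintype.card_bool, mul_comm]
  · rintro ⟨x, i, j⟩ ht ⟨x', i', j'⟩ ht' hh
    have hx : x ∈ I := (mem_product.1 (mem_coe.1 ht)).1
    have hx' : x' ∈ I := (mem_product.1 (mem_coe.1 ht')).1
    obtain ⟨a1, a2, a3, a4⟩ := h3 x hx x' hx'
    obtain ⟨b1, b2, b3, b4⟩ := h3 x' hx' x hx
    dsimp only at hh
    rcases Sym2.eq_iff.1 hh with ⟨e1, e2⟩ | ⟨e1, e2⟩
    · -- same first vertices
      have hxi : x = x' ∧ i = i' := by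
        cases i <;> cases i'
        · simp only [Bool.false_eq_true, if_false] at e1
          exact ⟨h1 x hx x' hx' e1, rfl⟩
        · simp only [Bool.false_eq_true, if_false, if_true] at e1
          exact absurd e1 (h2 x hx x' hx')
        · simp only [Bool.false_eq_true, if_false, if_true] at e1
          exact absurd e1.symm (h2 x' hx' x hx)
        · simp only [if_true] at e1
          exact ⟨e1, rfl⟩
      obtain ⟨rfl, rfl⟩ := hxi
      have hj : j = j' := by
        have h5 := h4 x hx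
        cases j <;> cases j'
        · rfl
        · simp only [Bool.false_eq_true, if_false, if_true] at e2
          exact absurd e2.symm h5
        · simp only [Bool.false_eq_true, if_false, if_true] at e2
          exact absurd e2 h5
        · rfl
      rw [hj]
    · exfalso
      cases i <;> cases j' <;>
        simp only [Bool.false_eq_true, if_false, if_true] at e1
      · exact b4 e1.symm
      · exact b3 e1.symm
      · exact b2 e1.symm
      · exact b1 e1.symm

/-- from near twins to a family of vertices with pairwise different relevant vertices -/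
theorem twins_fam (R : Finset (Sym2 V)) (hR : R ⊆ pairs V) (Δ : ℕ) (hΔ : ∀ x, dg R x ≤ Δ)
    (hΔ1 : 1 ≤ Δ) (h8 : ∀ x, 8 ≤ dg R x) (s i : ℕ) (hT : Twins R s)
    (hins : ∀ U : Finset V, s ≤ U.card → U.card ≤ 2 * s → 8 * (R ∩ ins U).card ≤ 9 * U.card)
    (hi : 40 * Δ ^ 2 * i ≤ s) :
    ∃ (I : Finset V) (g : V → V × V × V), I.card = i ∧ Ok I g ∧ four I g ⊆ R := by
  classical
  obtain ⟨U, τ, b1, b2, hUs, hU2, hU⟩ := hT
  -- the vertices with few neighbours in `U`
  set U1 : Finset V := U.filter (fun x => (nb R x ∩ U).card ≤ 2) with hU1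
  have hin := hins U hUs hU2
  have hdeg : ∑ x ∈ U, (nb R x ∩ U).card = 2 * (R ∩ ins U).card := by
    have e1 : ∀ x ∈ U, (nb R x ∩ U).card = ((R ∩ ins U).filter (fun e => x ∈ e)).card := by
      intro x hx
      rw [← card_image_of_injective (nb R x ∩ U) (f := fun y => s(x, y))
        (fun a b hab => Sym2.congr_right.1 hab)]
      congr 1
      ext e
      rw [mem_image, mem_filter, mem_inter]
      constructor
      · rintro ⟨y, hy, rfl⟩
        obtain ⟨hy1, hy2⟩ := mem_inter.1 hy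
        have hR' := (mem_nb R x y).1 hy1
        refine ⟨⟨hR', mem_filter.2 ⟨hR hR', fun z hz => ?_⟩⟩, Sym2.mem_mk_left x y⟩
        rcases Sym2.mem_iff.1 hz with rfl | rfl
        · exact hx
        · exact hy2
      · rintro ⟨⟨h1, h2⟩, h3⟩
        obtain ⟨y, rfl⟩ := h3
        exact ⟨y, mem_inter.2 ⟨(mem_nb R x y).2 h1,
          (mem_filter.1 h2).2 y (Sym2.mem_mk_right x y)⟩, rfl⟩
    rw [sum_congr rfl e1]
    calc ∑ x ∈ U, ((R ∩ ins U).filter (fun e => x ∈ e)).card
        = ∑ e ∈ R ∩ ins U, (U.filter (fun x => x ∈ e)).card := by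
          simp only [card_filter]
          rw [sum_comm]
      _ = ∑ _e ∈ R ∩ ins U, 2 := by
          apply sum_congr rfl
          intro e he
          obtain ⟨he1, he2⟩ := mem_inter.1 he
          have he3 := (mem_filter.1 he2).2
          have he' := hR he1
          induction e using Sym2.ind with
          | _ a b =>
            rw [mem_pairs] at he'
            have : U.filter (fun x => x ∈ s(a, b)) = {a, b} := by
              ext x
              rw [mem_filter, mem_insert, mem_singleton, Sym2.mem_iff]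
              constructor
              · exact fun h => h.2
              · intro h
                refine ⟨he3 x (Sym2.mem_iff.2 h), h⟩
            rw [this, card_pair he']
      _ = 2 * (R ∩ ins U).card := by rw [sum_const, smul_eq_mul, mul_comm]
  have hU1c : U.card ≤ 4 * U1.card := by
    have h1 : ∑ x ∈ U.filter (fun x => ¬ (nb R x ∩ U).card ≤ 2), 3 ≤
        ∑ x ∈ U, (nb R x ∩ U).card := by
      refine le_trans (sum_le_sum fun x hx => ?_)
        (sum_le_sum_of_subset (filter_subset (fun x => ¬ (nb R x ∩ U).card ≤ 2) U))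
      have := (mem_filter.1 hx).2
      omega
    rw [hdeg, sum_const, smul_eq_mul] at h1
    have h2 := card_filter_add_card_filter_not (s := U) (fun x => (nb R x ∩ U).card ≤ 2)
    have h3 : U1.card = (U.filter (fun x => (nb R x ∩ U).card ≤ 2)).card := rfl
    omega
  -- two common neighbours outside `U`
  have hz : ∀ x, ∃ z : V × V, x ∈ U1 → z.1 ≠ z.2 ∧ z.1 ∉ U ∧ z.2 ∉ U ∧
      s(x, z.1) ∈ R ∧ s(x, z.2) ∈ R ∧ s(τ x, z.1) ∈ R ∧ s(τ x, z.2) ∈ R := by
    intro x
    by_cases hx : x ∈ U1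
    · obtain ⟨hxU, hx2⟩ := mem_filter.1 hx
      have h1 : 2 ≤ (nb R x \ (U ∪ {b1 x, b2 x})).card := by
        have h2 := card_nb R x
        have h3 := h8 x
        have h4 : (nb R x).card ≤ (nb R x \ (U ∪ {b1 x, b2 x})).card +
            ((nb R x ∩ U).card + ({b1 x, b2 x} : Finset V).card) := by
          refine (card_le_card (t := (nb R x \ (U ∪ {b1 x, b2 x})) ∪
            ((nb R x ∩ U) ∪ {b1 x, b2 x})) ?_).trans ((card_union_le _ _).trans
            (Nat.add_le_add_left (card_union_le _ _) _))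
          intro y hy
          simp only [mem_union, mem_sdiff, mem_inter]
          tauto
        have h5 : ({b1 x, b2 x} : Finset V).card ≤ 2 := card_le_two
        omega
      obtain ⟨z1, hz1, z2, hz2, hne⟩ := one_lt_card.1 h1
      simp only [mem_sdiff, mem_union, mem_insert, mem_singleton, not_or, mem_nb] at hz1 hz2
      refine ⟨(z1, z2), fun _ => ⟨hne, hz1.2.1, hz2.2.1, hz1.1, hz2.1, ?_, ?_⟩⟩
      · exact (hU x hxU).2 z1 hz1.2.1 hz1.2.2.1 hz1.2.2.2 hz1.1
      · exact (hU x hxU).2 z2 hz2.2.1 hz2.2.2.1 hz2.2.2.2 hz2.1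
    · exact ⟨(x, x), fun h => absurd h hx⟩
  choose z hz using hz
  have hnb : ∀ x, (nb R x).card ≤ Δ := fun x => by
    rw [card_nb]
    exact hΔ x
  -- second neighbours
  let n2 : V → Finset V := fun y => (nb R y).biUnion (fun w => nb R w)
  have hn2 : ∀ y, (n2 y).card ≤ Δ ^ 2 := by
    intro y
    calc (n2 y).card ≤ ∑ w ∈ nb R y, (nb R w).card := card_biUnion_le
      _ ≤ ∑ _w ∈ nb R y, Δ := sum_le_sum fun w _ => hnb w
      _ = (nb R y).card * Δ := by rw [sum_const, smul_eq_mul]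
      _ ≤ Δ * Δ := Nat.mul_le_mul_right _ (hnb y)
      _ = Δ ^ 2 := by ring
  have hmem2 : ∀ x ∈ U1, x ∈ n2 (τ x) := by
    intro x hx
    obtain ⟨_, _, _, h1, _, h2, _⟩ := hz x hx
    refine mem_biUnion.2 ⟨(z x).1, (mem_nb _ _ _).2 h2, (mem_nb _ _ _).2 ?_⟩
    rw [Sym2.eq_swap]
    exact h1
  -- the conflicts
  let cf : V → V → Prop := fun x y => τ x = τ y ∨ τ x = y ∨ τ x = (z y).1 ∨ τ x = (z y).2
  let r : V → V → Prop := fun x y => cf x y ∨ cf y x
  have hcard : ∀ x ∈ U1, ∀ X : Finset V, X ⊆ U1 → (∀ y ∈ X, y ≠ x ∧ r x y) →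
      X.card ≤ 9 * Δ ^ 2 := by
    intro x hx X hX hXr
    have hsub : X ⊆ n2 (τ x) ∪ {τ x} ∪ nb R (τ x) ∪ (n2 x ∪ n2 (z x).1 ∪ n2 (z x).2) := by
      intro y hy
      have hyU := hX hy
      have hy2 := hmem2 y hyU
      simp only [mem_union, mem_singleton, mem_nb]
      obtain ⟨_, _, _, k1, k2, _, _⟩ := hz y hyU
      rcases (hXr y hy).2 with (h | h | h | h) | (h | h | h | h)
      · rw [h]
        exact Or.inl (Or.inl (Or.inl hy2))
      · exact Or.inl (Or.inl (Or.inr h.symm))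
      · rw [h]
        exact Or.inl (Or.inr (by rw [Sym2.eq_swap]; exact k1))
      · rw [h]
        exact Or.inl (Or.inr (by rw [Sym2.eq_swap]; exact k2))
      · rw [← h]
        exact Or.inl (Or.inl (Or.inl hy2))
      · rw [h] at hy2
        exact Or.inr (Or.inl (Or.inl hy2))
      · rw [h] at hy2
        exact Or.inr (Or.inl (Or.inr hy2))
      · rw [h] at hy2
        exact Or.inr (Or.inr hy2)
    have u1 := card_union_le (n2 (τ x) ∪ {τ x} ∪ nb R (τ x)) (n2 x ∪ n2 (z x).1 ∪ n2 (z x).2)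
    have u2 := card_union_le (n2 (τ x) ∪ {τ x}) (nb R (τ x))
    have u3 := card_union_le (n2 (τ x)) {τ x}
    have u4 := card_union_le (n2 x ∪ n2 (z x).1) (n2 (z x).2)
    have u5 := card_union_le (n2 x) (n2 (z x).1)
    have w1 := hn2 (τ x)
    have w2 := hn2 x
    have w3 := hn2 (z x).1
    have w4 := hn2 (z x).2
    have w5 := hnb (τ x)
    rw [card_singleton] at u3
    have w6 : Δ ≤ Δ ^ 2 := by nlinarith
    have w7 : 1 ≤ Δ ^ 2 := by nlinarith
    have := card_le_card hsub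
    omega
  obtain ⟨I0, hI0U, hI0, hI0w⟩ := exists_indep_weight r (fun a b h => h.symm) (fun _ => (1 : ℝ))
    (fun _ => by norm_num) (9 * Δ ^ 2) U1 hcard
  have hI0c : U1.card ≤ (9 * Δ ^ 2 + 1) * I0.card := by
    rw [sum_const, sum_const, nsmul_eq_mul, nsmul_eq_mul, mul_one, mul_one] at hI0w
    exact_mod_cast hI0w
  have hiI : i ≤ I0.card := by
    have w7 : 1 ≤ Δ ^ 2 := by nlinarith
    have h1 : 40 * Δ ^ 2 * i ≤ 4 * ((9 * Δ ^ 2 + 1) * I0.card) := by omega
    have h2 : 4 * ((9 * Δ ^ 2 + 1) * I0.card) ≤ 40 * Δ ^ 2 * I0.card := by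
      have : 4 * (9 * Δ ^ 2 + 1) ≤ 40 * Δ ^ 2 := by omega
      calc 4 * ((9 * Δ ^ 2 + 1) * I0.card) = (4 * (9 * Δ ^ 2 + 1)) * I0.card := by ring
        _ ≤ _ := Nat.mul_le_mul_right _ this
    exact Nat.le_of_mul_le_mul_left (h1.trans h2) (by omega)
  obtain ⟨I, hI, hIi⟩ := exists_subset_card_eq hiI
  have hIU1 : ∀ x ∈ I, x ∈ U1 := fun x hx => hI0U (hI hx)
  have hIU : ∀ x ∈ I, x ∈ U := fun x hx => (mem_filter.1 (hIU1 x hx)).1
  have hind : ∀ x ∈ I, ∀ y ∈ I, x ≠ y → ¬ cf x y := fun x hx y hy hxy h =>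
    hI0 x (hI hx) y (hI hy) hxy (Or.inl h)
  refine ⟨I, fun x => (τ x, z x), hIi, ⟨?_, ?_, ?_, ?_⟩, ?_⟩
  · intro x hx y hy h
    by_contra hne
    exact hind x hx y hy hne (Or.inl h)
  · intro x hx y hy h
    by_cases hxy : x = y
    · rw [← hxy] at h
      exact (hU x (hIU x hx)).1 h
    · exact hind x hx y hy hxy (Or.inr (Or.inl h))
  · intro x hx y hy
    obtain ⟨k0, k1, k2, k3, k4, k5, k6⟩ := hz x (hIU1 x hx)
    have hself : ∀ w, s(τ x, w) ∈ R → w ≠ τ x := by
      intro w hw h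
      rw [h] at hw
      exact (mem_pairs _ _).1 (hR hw) rfl
    refine ⟨fun h => k1 ?_, fun h => k2 ?_, fun h => ?_, fun h => ?_⟩
    · have h' : (z x).1 = y := h
      rw [h']
      exact hIU y hy
    · have h' : (z x).2 = y := h
      rw [h']
      exact hIU y hy
    · have h' : (z x).1 = τ y := h
      by_cases hxy : y = x
      · rw [hxy] at h'
        exact hself _ k5 h'
      · exact hind y hy x hx hxy (Or.inr (Or.inr (Or.inl h'.symm)))
    · have h' : (z x).2 = τ y := h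
      by_cases hxy : y = x
      · rw [hxy] at h'
        exact hself _ k6 h'
      · exact hind y hy x hx hxy (Or.inr (Or.inr (Or.inr h'.symm)))
  · intro x hx
    exact (hz x (hIU1 x hx)).1
  · intro e he
    obtain ⟨⟨x, a, b⟩, ht, rfl⟩ := mem_image.1 he
    obtain ⟨k0, k1, k2, k3, k4, k5, k6⟩ := hz x (hIU1 x (mem_product.1 ht).1)
    cases a <;> cases b
    · exact k6
    · exact k5
    · exact k4
    · exact k3

end

end Pool.Agent.J4H85.GD
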