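import Pool.Agent.J4H85.GD.Par
import Pool.Agent.J4H85.RP.Fin

set_option autoImplicit false

/-! Graphs with given degrees: the final form. -/

namespace Pool.Agent.J4H85.GD

open Finset Pool.Agent.H234RC Pool.Agent.TH953.RC Pool.Agent.Y395.RS Pool.Agent.Y395.RW
open Pool.Agent.J4H85.RP

section

variable {V : Type} [Fintype V] [DecidableEq V]

open Classical in
theorem dg_ed (H : SimpleGraph V) (x : V) :
    dg (ed H) x = (univ.filter (fun y => H.Adj x y)).card := by
  rw [← card_nb]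
  congr 1
  ext y
  rw [mem_nb, mem_ed, mem_filter]
  exact ⟨fun h => ⟨mem_univ _, h⟩, fun h => h.2⟩

open Classical in
theorem ncard_fam (dd : V → ℕ) (P : SimpleGraph V → Prop) :
    {H : SimpleGraph V | (∀ x, (univ.filter (fun y => H.Adj x y)).card = dd x) ∧ P H}.ncard =
      ((fam dd).filter (fun R => P (gr R))).card := by
  have e : {H : SimpleGraph V | (∀ x, (univ.filter (fun y => H.Adj x y)).card = dd x) ∧ P H} =
      ((((fam dd).filter (fun R => P (gr R))).image gr :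
        Finset (SimpleGraph V)) : Set (SimpleGraph V)) := by
    ext H
    simp only [Set.mem_ofPred_eq, coe_image, coe_filter, mem_fam, Set.mem_image]
    constructor
    · rintro ⟨h1, h2⟩
      exact ⟨ed H, ⟨⟨ed_sub_pairs H, fun x => by rw [dg_ed]; exact h1 x⟩, by
        rw [gr_ed]; exact h2⟩, gr_ed H⟩
    · rintro ⟨F, ⟨⟨hF, hm⟩, hP⟩, rfl⟩
      refine ⟨fun x => ?_, hP⟩
      rw [← dg_ed, ed_gr_pairs F hF, hm]
  rw [e, Set.ncard_coe_finset, card_image_of_injOn]
  intro F hF F' hF' h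
  have hF1 := ((mem_fam dd F).1 (mem_filter.1 (mem_coe.1 hF)).1).1
  have hF2 := ((mem_fam dd F').1 (mem_filter.1 (mem_coe.1 hF')).1).1
  rw [← ed_gr_pairs F hF1, ← ed_gr_pairs F' hF2, h]

end

open Classical in
theorem fin_given (Δ : ℕ) (δ : ℝ) (hδ : 0 < δ) : ∃ c : ℝ, 0 < c ∧ ∃ n₀ : ℕ,
    ∀ (V : Type) [Fintype V] (dd : V → ℕ), n₀ ≤ Fintype.card V →
      (∀ x, 8 ≤ dd x ∧ dd x ≤ Δ) →
      (({H : SimpleGraph V | (∀ x, (univ.filter (fun y => H.Adj x y)).card = dd x) ∧
        ¬ ((((BT H).card : ℝ) ≤ δ * (Fintype.card V : ℝ) ^ 3 ∧ Reconstructible H) ∧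
          (((BT Hᶜ).card : ℝ) ≤ δ * (Fintype.card V : ℝ) ^ 3 ∧ Reconstructible Hᶜ))}.ncard : ℕ) : ℝ) ≤
        Real.exp (-(c * Fintype.card V)) *
          (({H : SimpleGraph V | ∀ x, (univ.filter (fun y => H.Adj x y)).card = dd x}.ncard : ℕ)
            : ℝ) := by
  obtain ⟨c, hc, n₀, h⟩ := given Δ (min δ (1 / 2)) (lt_min hδ (by norm_num)) (min_le_right _ _)
  refine ⟨c, hc, n₀, fun V _ dd hn hd => ?_⟩
  have h1 := h V hn dd (fun x => (hd x).1) (fun x => (hd x).2)
  have h2 := ncard_fam dd (fun _ => True)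
  simp only [and_true, filter_true] at h2
  rw [h2]
  refine le_trans ?_ h1
  rw [ncard_fam]
  have h3 : ((fam dd).filter (fun R => ¬ ((((BT (gr R)).card : ℝ) ≤
      δ * (Fintype.card V : ℝ) ^ 3 ∧ Reconstructible (gr R)) ∧
          (((BT (gr R)ᶜ).card : ℝ) ≤ δ * (Fintype.card V : ℝ) ^ 3 ∧ Reconstructible (gr R)ᶜ)))) ⊆
      (fam dd).filter (fun R => ¬ (Pool.Agent.J4H85.RP.Good (min δ (1 / 2)) (gr R) univ ∧
        Pool.Agent.J4H85.RP.Good (min δ (1 / 2)) (gr R)ᶜ univ)) := by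
    intro R hR
    obtain ⟨h4, h5⟩ := mem_filter.1 hR
    refine mem_filter.2 ⟨h4, fun h6 => h5 ?_⟩
    have key : ∀ G : SimpleGraph V, Pool.Agent.J4H85.RP.Good (min δ (1 / 2)) G univ →
        (((BT G).card : ℝ) ≤ δ * (Fintype.card V : ℝ) ^ 3 ∧ Reconstructible G) := by
      intro G hG
      obtain ⟨h7, h8⟩ := hG
      constructor
      · refine le_trans (le_of_eq ?_) (h7.trans ?_)
        · congr
        · rw [card_univ, sub_self, mul_zero, zero_add]
          have h9 : min δ (1 / 2) * (Fintype.card V : ℝ) ≤ δ * Fintype.card V :=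
            mul_le_mul_of_nonneg_right (min_le_left _ _) (Nat.cast_nonneg _)
          calc min δ (1 / 2) * (Fintype.card V : ℝ) * (Fintype.card V : ℝ) ^ 2 ≤
              δ * Fintype.card V * (Fintype.card V : ℝ) ^ 2 :=
                mul_le_mul_of_nonneg_right h9 (by positivity)
            _ = _ := by ring
      · apply h8
        rw [card_univ]
        have h9 : min δ (1 / 2) ≤ 1 / 2 := min_le_right _ _
        have h10 : (0 : ℝ) ≤ Fintype.card V := Nat.cast_nonneg _
        nlinarith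
    exact ⟨key _ h6.1, key _ h6.2⟩
  exact_mod_cast card_le_card h3

end Pool.Agent.J4H85.GD
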