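import Pool.Agent.J4H85.GD.Count

set_option autoImplicit false

/-! Graphs with given degrees: the choice of the parameters. -/

namespace Pool.Agent.J4H85.GD

open Finset Pool.Agent.H234RC Pool.Agent.TH953.RC Pool.Agent.Y395.RS Pool.Agent.Y395.RW

section

variable {V : Type} [Fintype V]

/-- sums over the subsets of size between `s` and `2 s` -/
theorem sum_sets (s : ℕ) (hs1 : 1 ≤ s) (ε T b : ℝ) (hT : Real.exp (-T) = ε)
    (hsn : ε * Fintype.card V ≤ s) (ζ : ℝ) (hζ0 : 0 ≤ ζ) (hζ : ζ ≤ Real.exp (b - T))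
    (hb : 24 + 9 * b ≤ T) (hb0 : 0 ≤ b) :
    ∑ U ∈ (univ : Finset V).powerset.filter (fun U => s ≤ U.card ∧ U.card ≤ 2 * s),
      ζ ^ (9 * U.card / 8 + 1) ≤ ((Fintype.card V : ℝ) + 1) * Real.exp (-(2 * s)) := by
  classical
  set n := Fintype.card V with hn
  rw [sum_filter]
  have h1 : ∀ U ∈ (univ : Finset V).powerset,
      (if s ≤ U.card ∧ U.card ≤ 2 * s then ζ ^ (9 * U.card / 8 + 1) else 0) =
      (fun k : ℕ => if s ≤ k ∧ k ≤ 2 * s then ζ ^ (9 * k / 8 + 1) else 0) U.card := fun _ _ => rfl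
  rw [sum_congr rfl h1, Finset.sum_powerset_apply_card
    (fun k : ℕ => if s ≤ k ∧ k ≤ 2 * s then ζ ^ (9 * k / 8 + 1) else 0),
    card_univ, ← hn]
  have h2 : ∀ k ∈ range (n + 1), (n.choose k) •
      (if s ≤ k ∧ k ≤ 2 * s then ζ ^ (9 * k / 8 + 1) else 0) ≤ Real.exp (-(2 * s)) := by
    intro k _
    split_ifs with hk
    · obtain ⟨hk1, hk2⟩ := hk
      have hk0 : (0 : ℝ) < k := by
        have : 0 < k := by omega
        exact_mod_cast this
      have hkR : (s : ℝ) ≤ k := by exact_mod_cast hk1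
      have h3 : (n.choose k : ℝ) ≤ Real.exp ((1 + T) * k) := by
        refine (choose_le_exp n k (by omega)).trans ?_
        have h4 : Real.exp 1 * n / k ≤ Real.exp (1 + T) := by
          rw [div_le_iff₀ hk0, Real.exp_add, mul_assoc]
          apply mul_le_mul_of_nonneg_left _ (Real.exp_pos 1).le
          have h5 : Real.exp T * ε = 1 := by
            rw [← hT, ← Real.exp_add, add_neg_cancel, Real.exp_zero]
          have h6 : Real.exp T * (ε * n) ≤ Real.exp T * k :=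
            mul_le_mul_of_nonneg_left (hsn.trans hkR) (Real.exp_pos T).le
          calc (n : ℝ) = (Real.exp T * ε) * n := by rw [h5, one_mul]
            _ = Real.exp T * (ε * n) := by ring
            _ ≤ _ := h6
        calc (Real.exp 1 * n / k) ^ k ≤ Real.exp (1 + T) ^ k :=
              pow_le_pow_left₀ (by positivity) h4 k
          _ = Real.exp ((1 + T) * k) := by
              rw [← Real.exp_nat_mul]
              congr 1
              ring
      have h4 : ζ ^ (9 * k / 8 + 1) ≤ Real.exp ((b - T) * (9 / 8 * k)) := by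
        calc ζ ^ (9 * k / 8 + 1) ≤ Real.exp (b - T) ^ (9 * k / 8 + 1) :=
              pow_le_pow_left₀ hζ0 hζ _
          _ = Real.exp ((b - T) * ((9 * k / 8 + 1 : ℕ) : ℝ)) := by
              rw [← Real.exp_nat_mul]
              congr 1
              ring
          _ ≤ _ := by
              apply Real.exp_le_exp.2
              have h5 : (9 / 8 * (k : ℝ)) ≤ ((9 * k / 8 + 1 : ℕ) : ℝ) := by
                have h6 : 9 * k ≤ 8 * (9 * k / 8 + 1) := by omega
                have h7 : 9 * (k : ℝ) ≤ 8 * ((9 * k / 8 + 1 : ℕ) : ℝ) := by exact_mod_cast h6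
                linarith
              have h6 : b - T ≤ 0 := by linarith
              nlinarith
      rw [nsmul_eq_mul]
      calc (n.choose k : ℝ) * ζ ^ (9 * k / 8 + 1)
          ≤ Real.exp ((1 + T) * k) * Real.exp ((b - T) * (9 / 8 * k)) :=
            mul_le_mul h3 h4 (by positivity) (Real.exp_pos _).le
        _ = Real.exp ((1 + 9 / 8 * b - T / 8) * k) := by
            rw [← Real.exp_add]
            congr 1
            ring
        _ ≤ Real.exp (-(2 * s)) := by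
            apply Real.exp_le_exp.2
            have h5 : 1 + 9 / 8 * b - T / 8 ≤ -2 := by linarith
            nlinarith
    · rw [smul_zero]
      exact (Real.exp_pos _).le
  refine (sum_le_sum h2).trans (le_of_eq ?_)
  rw [sum_const, card_range, nsmul_eq_mul]
  push_cast
  ring


theorem sum_big (n s : ℕ) (hnn : Fintype.card V = n) (μ l ε y : ℝ) (hy0 : 0 ≤ y)
    (hy : y ≤ Real.exp (μ - l)) (hn0 : (0 : ℝ) < n) (hln : Real.exp l = n) (hl2 : l ≤ n)
    (hε : 0 < ε) (hμ0 : 0 ≤ μ) (h3 : 3 / ε ≤ l / 8 - 9 / 8 * μ) (s1 : ε * n ≤ s) :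
    ∑ K ∈ (univ : Finset V).powerset.filter (fun K => s ≤ K.card),
      (n : ℝ) ^ K.card * y ^ (9 * K.card / 8) ≤ Real.exp (-n) := by
  have h3' : 0 < 3 / ε := by positivity
  have he1 : 2 ≤ Real.exp 1 := by
    have := Real.add_one_le_exp (1 : ℝ)
    linarith
  have two_pow : (2 : ℝ) ^ n ≤ Real.exp n := by
    calc (2 : ℝ) ^ n ≤ Real.exp 1 ^ n := pow_le_pow_left₀ (by norm_num) he1 n
      _ = Real.exp n := by rw [← Real.exp_nat_mul, mul_one]
  have hterm : ∀ K ∈ (univ : Finset V).powerset.filter (fun K => s ≤ K.card),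
      (n : ℝ) ^ K.card * y ^ (9 * K.card / 8) ≤ Real.exp (-(2 * n)) := by
    intro K hK
    obtain ⟨-, hKs⟩ := mem_filter.1 hK
    obtain ⟨k, hk⟩ : ∃ k, k = K.card := ⟨_, rfl⟩
    rw [← hk] at hKs ⊢
    have hkR : (s : ℝ) ≤ k := by exact_mod_cast hKs
    have h1 : (n : ℝ) ^ k = Real.exp (l * k) := by
      rw [← hln, ← Real.exp_nat_mul]
      congr 1
      ring
    have h5 : μ - l ≤ 0 := by linarith
    have h2 : y ^ (9 * k / 8) ≤ Real.exp ((μ - l) * (9 / 8 * k - 7 / 8)) := by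
      calc y ^ (9 * k / 8) ≤ Real.exp (μ - l) ^ (9 * k / 8) := pow_le_pow_left₀ hy0 hy _
        _ = Real.exp ((μ - l) * ((9 * k / 8 : ℕ) : ℝ)) := by
            rw [← Real.exp_nat_mul]
            congr 1
            ring
        _ ≤ _ := by
            apply Real.exp_le_exp.2
            have h3 : 9 * k ≤ 8 * (9 * k / 8) + 7 := by omega
            have h4 : 9 * (k : ℝ) ≤ 8 * ((9 * k / 8 : ℕ) : ℝ) + 7 := by exact_mod_cast h3
            apply mul_le_mul_of_nonpos_left _ h5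
            linarith
    rw [h1]
    calc Real.exp (l * k) * y ^ (9 * k / 8)
        ≤ Real.exp (l * k) * Real.exp ((μ - l) * (9 / 8 * k - 7 / 8)) :=
          mul_le_mul_of_nonneg_left h2 (Real.exp_pos _).le
      _ = Real.exp (-(k * (l / 8 - 9 / 8 * μ)) + 7 / 8 * (l - μ)) := by
          rw [← Real.exp_add]
          congr 1
          ring
      _ ≤ Real.exp (-(2 * n)) := by
          apply Real.exp_le_exp.2
          have h4 : ε * n * (3 / ε) ≤ k * (l / 8 - 9 / 8 * μ) :=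
            mul_le_mul (s1.trans hkR) h3 h3'.le (by positivity)
          have h5 : ε * n * (3 / ε) = 3 * n := by field_simp
          linarith
  refine (sum_le_sum hterm).trans ?_
  rw [sum_const, nsmul_eq_mul]
  have hc : ((((univ : Finset V).powerset.filter (fun K => s ≤ K.card)).card : ℕ) : ℝ) ≤
      Real.exp n := by
    refine le_trans ?_ two_pow
    have : ((univ : Finset V).powerset.filter (fun K => s ≤ K.card)).card ≤ 2 ^ n := by
      refine (card_le_card (filter_subset _ _)).trans (le_of_eq ?_)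
      rw [card_powerset, card_univ, hnn]
    exact_mod_cast this
  calc ((((univ : Finset V).powerset.filter (fun K => s ≤ K.card)).card : ℕ) : ℝ) *
        Real.exp (-(2 * n)) ≤ Real.exp n * Real.exp (-(2 * n)) :=
        mul_le_mul_of_nonneg_right hc (Real.exp_pos _).le
    _ = Real.exp (-n) := by
        rw [← Real.exp_add]
        congr 1
        ring

omit [Fintype V] in
theorem pow_twins (n i : ℕ) (D μ l ε y : ℝ) (hD : 0 < D) (hy0 : 0 ≤ y)
    (hy : y ≤ Real.exp (2 * μ - l)) (hε : 0 < ε) (hn0 : (0 : ℝ) < n)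
    (h1 : 160 * D ^ 2 / ε ≤ l - 2 * μ) (i2 : ε * n / (80 * D ^ 2) ≤ i) :
    2 ^ n * y ^ i ≤ Real.exp (-n) := by
  have he1 : 2 ≤ Real.exp 1 := by
    have := Real.add_one_le_exp (1 : ℝ)
    linarith
  have two_pow : (2 : ℝ) ^ n ≤ Real.exp n := by
    calc (2 : ℝ) ^ n ≤ Real.exp 1 ^ n := pow_le_pow_left₀ (by norm_num) he1 n
      _ = Real.exp n := by rw [← Real.exp_nat_mul, mul_one]
  have h0 : 0 < 160 * D ^ 2 / ε := by positivity
  calc 2 ^ n * y ^ i ≤ Real.exp n * Real.exp (2 * μ - l) ^ i :=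
        mul_le_mul two_pow (pow_le_pow_left₀ hy0 hy i) (by positivity) (Real.exp_pos _).le
    _ = Real.exp (n - (l - 2 * μ) * i) := by
        rw [← Real.exp_nat_mul, ← Real.exp_add]
        congr 1
        ring
    _ ≤ Real.exp (-n) := by
        apply Real.exp_le_exp.2
        have h2 : 160 * D ^ 2 / ε * (ε * n / (80 * D ^ 2)) ≤ (l - 2 * μ) * i :=
          mul_le_mul h1 i2 (by positivity) (by linarith)
        have h3 : 160 * D ^ 2 / ε * (ε * n / (80 * D ^ 2)) = 2 * n := by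
          field_simp
          ring
        linarith

end

open Classical in
/-- graphs with given degrees -/
theorem given (Δ : ℕ) (δ : ℝ) (hδ : 0 < δ) (hδ2 : δ ≤ 1 / 2) : ∃ c : ℝ, 0 < c ∧ ∃ n₀ : ℕ,
    ∀ (V : Type) [Fintype V] [DecidableEq V], n₀ ≤ Fintype.card V → ∀ dd : V → ℕ,
      (∀ x, 8 ≤ dd x) → (∀ x, dd x ≤ Δ) →
      (((fam dd).filter (fun R => ¬ (Pool.Agent.J4H85.RP.Good δ (gr R) univ ∧
        Pool.Agent.J4H85.RP.Good δ (gr R)ᶜ univ))).card : ℝ) ≤
        Real.exp (-(c * Fintype.card V)) * (fam dd).card := by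
  -- the parameters
  by_cases hΔ8 : Δ < 8
  · refine ⟨1, one_pos, 1, ?_⟩
    intro V _ _ hn dd h1 h2
    exfalso
    have hne : Nonempty V := by
      rw [← Fintype.card_pos_iff]
      omega
    obtain ⟨x⟩ := hne
    have := h1 x
    have := h2 x
    omega
  push Not at hΔ8
  set D : ℝ := (Δ : ℝ) with hD
  have hD8 : (8 : ℝ) ≤ D := by
    rw [hD]
    exact_mod_cast hΔ8
  have hD0 : 0 < D := by linarith
  set b : ℝ := Real.log (2 * Real.exp 1 * D ^ 2) with hb
  have he1 : 2 ≤ Real.exp 1 := by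
    have := Real.add_one_le_exp (1 : ℝ)
    linarith
  have hbarg : 1 ≤ 2 * Real.exp 1 * D ^ 2 := by nlinarith
  have hb0 : 0 ≤ b := Real.log_nonneg hbarg
  have hbe : Real.exp b = 2 * Real.exp 1 * D ^ 2 := Real.exp_log (by linarith)
  set T : ℝ := max (24 + 9 * b) (Real.log (16 / δ)) with hT
  have hT1 : 24 + 9 * b ≤ T := le_max_left _ _
  have hT2 : Real.log (16 / δ) ≤ T := le_max_right _ _
  set ε : ℝ := Real.exp (-T) with hε
  have hε0 : 0 < ε := Real.exp_pos _
  have hεδ : ε ≤ δ / 16 := by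
    have h1 : Real.exp (-T) ≤ Real.exp (-(Real.log (16 / δ))) :=
      Real.exp_le_exp.2 (by linarith)
    have h2 : Real.exp (-(Real.log (16 / δ))) = δ / 16 := by
      rw [Real.exp_neg, Real.exp_log (by positivity), inv_div]
    rw [hε]
    exact h1.trans h2.le
  have hε32 : ε ≤ 1 / 32 := by linarith
  set μ : ℝ := 4 * Real.log D with hμ
  have hμ0 : 0 ≤ μ := by
    have := Real.log_nonneg (show (1 : ℝ) ≤ D by linarith)
    linarith
  have hμe : Real.exp μ = D ^ 4 := by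
    rw [hμ]
    have : Real.exp (4 * Real.log D) = Real.exp (Real.log D) ^ 4 := by
      rw [← Real.exp_nat_mul]
      norm_num
    rw [this, Real.exp_log hD0]
  obtain ⟨n₀, hn₀⟩ := exists_nat_gt (Real.exp (24 / ε + 9 * μ + 2 * μ + 160 * D ^ 2 / ε) +
    16 * D / ε + 80 * D ^ 2 / ε + 8 * D + 4 * D ^ 2 + 32 / δ + 16 / ε ^ 2 + 16)
  have p1 : 0 < Real.exp (24 / ε + 9 * μ + 2 * μ + 160 * D ^ 2 / ε) := Real.exp_pos _
  have p2 : 0 < 16 * D / ε := by positivity
  have p3 : 0 < 80 * D ^ 2 / ε := by positivity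
  have p4 : 0 < 32 / δ := by positivity
  have p5 : 0 < 16 / ε ^ 2 := by positivity
  have p6 : 0 < 4 * D ^ 2 := by positivity
  refine ⟨ε / 2, by linarith, n₀, ?_⟩
  intro V _ _ hn dd h8 hΔ
  set n := Fintype.card V with hnn
  have hnR : (n₀ : ℝ) ≤ n := by exact_mod_cast hn
  have hn0 : (0 : ℝ) < n := by linarith
  have q1 : Real.exp (24 / ε + 9 * μ + 2 * μ + 160 * D ^ 2 / ε) ≤ n := by linarith
  have q2 : 16 * D ≤ ε * n := by
    have h1 : 16 * D / ε ≤ n := by linarith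
    rw [div_le_iff₀ hε0] at h1
    linarith
  have q3 : 80 * D ^ 2 ≤ ε * n := by
    have h1 : 80 * D ^ 2 / ε ≤ n := by linarith
    rw [div_le_iff₀ hε0] at h1
    linarith
  have q4 : 8 * D + 4 * D ^ 2 ≤ n := by linarith
  have q5 : 32 ≤ δ * n := by
    have h1 : 32 / δ ≤ n := by linarith
    rw [div_le_iff₀ hδ] at h1
    linarith
  have q6 : 16 ≤ ε ^ 2 * n := by
    have h1 : 16 / ε ^ 2 ≤ n := by linarith
    rw [div_le_iff₀ (by positivity)] at h1
    linarith
  have q7 : (16 : ℝ) ≤ n := by linarith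
  have q8 : 3 ≤ n := by
    have : (3 : ℝ) ≤ n := by linarith
    exact_mod_cast this
  -- the family is empty or `∑ dd` is even
  rcases (fam dd).eq_empty_or_nonempty with hemp | ⟨R0, hR0⟩
  · rw [hemp]
    simp
  obtain ⟨hR0p, hR0d⟩ := (mem_fam dd R0).1 hR0
  set m := R0.card with hm
  have hsum : ∑ x, dd x = 2 * m := by
    rw [← sum_dg R0 hR0p]
    exact sum_congr rfl fun x _ => (hR0d x).symm
  have hm4 := m_ge dd m hsum h8
  rw [← hnn] at hm4
  have hm4R : 4 * (n : ℝ) ≤ m := by exact_mod_cast hm4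
  have hm0 : (0 : ℝ) < m := by linarith
  set q : ℝ := 2 * D ^ 2 / m with hq
  have hq0 : 0 ≤ q := by positivity
  have hqn : q ≤ D ^ 2 / (2 * n) := by
    rw [hq, div_le_div_iff₀ hm0 (by positivity)]
    have h1 : 0 ≤ D ^ 2 := by positivity
    have h2 : D ^ 2 * (4 * n) ≤ D ^ 2 * m := mul_le_mul_of_nonneg_left hm4R h1
    linarith
  -- the integer `s`
  obtain ⟨s, hs⟩ : ∃ s : ℕ, s = ⌊ε * n⌋₊ + 1 := ⟨_, rfl⟩
  have s1 : ε * n ≤ s := by
    have := Nat.lt_floor_add_one (ε * n)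
    rw [hs]
    push_cast
    exact this.le
  have s2 : (s : ℝ) ≤ ε * n + 1 := by
    have : (⌊ε * n⌋₊ : ℝ) ≤ ε * n := Nat.floor_le (by positivity)
    rw [hs]
    push_cast
    linarith
  have s3 : (s : ℝ) ≤ 2 * (ε * n) := by
    have : 1 ≤ ε * n := by linarith
    linarith
  have s4 : (s : ℝ) ≤ n / 16 := by
    have : ε * n ≤ 1 / 32 * n := mul_le_mul_of_nonneg_right hε32 hn0.le
    linarith
  have s5 : 1 ≤ s := by omega
  have hs16 : 16 * Δ ≤ s := by
    have : 16 * (Δ : ℝ) ≤ s := q2.trans s1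
    exact_mod_cast this
  have hD2n : 8 * Δ + 4 * Δ ^ 2 ≤ n := by
    have : 8 * (Δ : ℝ) + 4 * (Δ : ℝ) ^ 2 ≤ n := q4
    exact_mod_cast this
  have hn16 : 16 ≤ n := by exact_mod_cast q7
  have hs16n : 16 * s ≤ n := by
    have : 16 * (s : ℝ) ≤ n := by linarith
    exact_mod_cast this
  obtain ⟨i, hi⟩ : ∃ i : ℕ, i = s / (40 * Δ ^ 2) := ⟨_, rfl⟩
  have hDsq : 1 ≤ Δ ^ 2 := Nat.one_le_pow _ _ (by omega)
  have i1 : 40 * Δ ^ 2 * i ≤ s := by
    rw [hi]
    exact Nat.mul_div_le _ _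
  have i2 : ε * n / (80 * D ^ 2) ≤ i := by
    have h1 : s < 40 * Δ ^ 2 * (i + 1) := by
      have := Nat.lt_mul_div_succ s (show 0 < 40 * Δ ^ 2 by omega)
      rw [hi]
      exact this
    have h2 : (s : ℝ) ≤ 40 * D ^ 2 * (i + 1) := by
      have : (s : ℝ) ≤ ((40 * Δ ^ 2 * (i + 1) : ℕ) : ℝ) := by exact_mod_cast h1.le
      push_cast at this
      exact this
    rw [div_le_iff₀ (by positivity)]
    have h3 : 40 * D ^ 2 * ((i : ℝ) + 1) = 40 * D ^ 2 * i + 40 * D ^ 2 := by ring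
    have h4 : (i : ℝ) * (80 * D ^ 2) = 2 * (40 * D ^ 2 * i) := by ring
    rw [h4]
    linarith
  have i3 : i ≤ s := by
    rw [hi]
    exact Nat.div_le_self _ _
  -- the logarithm of `n`
  set l : ℝ := Real.log n with hl
  have hln : Real.exp l = n := Real.exp_log hn0
  have l1 : 24 / ε + 9 * μ + 2 * μ + 160 * D ^ 2 / ε ≤ l := by
    rw [hl, Real.le_log_iff_exp_le hn0]
    exact q1
  have l2 : l ≤ n := by
    have := Real.log_le_sub_one_of_pos hn0
    linarith
  have r1 : 0 < 24 / ε := by positivity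
  have r2 : 0 < 160 * D ^ 2 / ε := by positivity
  have two_pow : (2 : ℝ) ^ n ≤ Real.exp n := by
    calc (2 : ℝ) ^ n ≤ Real.exp 1 ^ n := pow_le_pow_left₀ (by norm_num) he1 n
      _ = Real.exp n := by rw [← Real.exp_nat_mul, mul_one]
  have hF0 : (0 : ℝ) ≤ (fam dd).card := Nat.cast_nonneg _
  -- the three bad families
  obtain ⟨T1, hT1'⟩ : ∃ T1 : Finset (Finset (Sym2 V)), ∀ R, R ∈ T1 ↔ R ∈ fam dd ∧ Big R s :=
    ⟨(fam dd).filter (fun R => Big R s), fun R => mem_filter⟩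
  obtain ⟨T2, hT2'⟩ : ∃ T2 : Finset (Finset (Sym2 V)), ∀ R, R ∈ T2 ↔ R ∈ fam dd ∧
      ∃ (I : Finset V) (g : V → V × V × V), I.card = i ∧ Ok I g ∧ four I g ⊆ R :=
    ⟨(fam dd).filter (fun R => ∃ (I : Finset V) (g : V → V × V × V), I.card = i ∧
      Ok I g ∧ four I g ⊆ R), fun R => mem_filter⟩
  obtain ⟨T3, hT3'⟩ : ∃ T3 : Finset (Finset (Sym2 V)), ∀ R, R ∈ T3 ↔ R ∈ fam dd ∧
      ∃ U : Finset V, s ≤ U.card ∧ U.card ≤ 2 * s ∧ 9 * U.card < 8 * (R ∩ ins U).card :=
    ⟨(fam dd).filter (fun R => ∃ U : Finset V, s ≤ U.card ∧ U.card ≤ 2 * s ∧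
      9 * U.card < 8 * (R ∩ ins U).card), fun R => mem_filter⟩
  have b1 : (T1.card : ℝ) ≤ Real.exp (-n) * (fam dd).card := by
    refine (big_one dd Δ m hΔ hsum h8 s hs16 s5 (by omega) T1 (fun R hR => (hT1' R).1 hR)).trans ?_
    rw [← sum_mul]
    apply mul_le_mul_of_nonneg_right _ hF0
    have hy : Real.exp 1 * n * (2 * (Δ : ℝ) ^ 2 / m) ^ 2 ≤ Real.exp (μ - l) := by
      have h1 : (2 * (Δ : ℝ) ^ 2 / m) ^ 2 ≤ (D ^ 2 / (2 * n)) ^ 2 :=
        pow_le_pow_left₀ hq0 hqn 2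
      have h2 : Real.exp 1 * n * (2 * (Δ : ℝ) ^ 2 / m) ^ 2 ≤ Real.exp 1 * n *
          (D ^ 2 / (2 * n)) ^ 2 := mul_le_mul_of_nonneg_left h1 (by positivity)
      refine h2.trans ?_
      rw [Real.exp_sub, hμe, hln]
      have h3 : Real.exp 1 * n * (D ^ 2 / (2 * n)) ^ 2 = Real.exp 1 / 4 * (D ^ 4 / n) := by
        field_simp
        ring
      rw [h3]
      have h4 : Real.exp 1 / 4 ≤ 1 := by
        have := Real.exp_one_lt_d9
        linarith
      have h5 : 0 ≤ D ^ 4 / n := by positivity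
      exact mul_le_of_le_one_left h5 h4
    exact sum_big n s rfl μ l ε _ (by positivity) hy hn0 hln l2 hε0 hμ0 (by
      have : 24 / ε = 8 * (3 / ε) := by ring
      linarith) s1
  have b2 : (T2.card : ℝ) ≤ Real.exp (-n) * (fam dd).card := by
    refine (twins_one dd Δ m hΔ hsum h8 i (by omega) (by omega) T2
      (fun R hR => (hT2' R).1 hR)).trans ?_
    apply mul_le_mul_of_nonneg_right _ hF0
    have hy : (n : ℝ) ^ 3 * (2 * (Δ : ℝ) ^ 2 / m) ^ 4 ≤ Real.exp (2 * μ - l) := by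
      have h1 : (2 * (Δ : ℝ) ^ 2 / m) ^ 4 ≤ (D ^ 2 / (2 * n)) ^ 4 :=
        pow_le_pow_left₀ hq0 hqn 4
      have h2 : (n : ℝ) ^ 3 * (2 * (Δ : ℝ) ^ 2 / m) ^ 4 ≤ (n : ℝ) ^ 3 *
          (D ^ 2 / (2 * n)) ^ 4 := mul_le_mul_of_nonneg_left h1 (by positivity)
      refine h2.trans ?_
      have h6 : Real.exp (2 * μ) = D ^ 8 := by
        have : Real.exp (2 * μ) = Real.exp μ ^ 2 := by
          rw [← Real.exp_nat_mul]
          norm_num
        rw [this, hμe]
        ring
      rw [Real.exp_sub, h6, hln]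
      have h3 : (n : ℝ) ^ 3 * (D ^ 2 / (2 * n)) ^ 4 = 1 / 16 * (D ^ 8 / n) := by
        field_simp
        ring
      rw [h3]
      have h5 : 0 ≤ D ^ 8 / n := by positivity
      linarith
    exact pow_twins n i D μ l ε _ hD0 (by positivity) hy hε0 hn0 (by linarith) i2
  have b3 : (T3.card : ℝ) ≤ Real.exp (-(ε * n)) * (fam dd).card := by
    refine (dense_one dd Δ m hΔ hsum h8 s s5 (by omega) T3 (fun R hR => (hT3' R).1 hR)).trans ?_
    rw [← sum_mul]
    apply mul_le_mul_of_nonneg_right _ hF0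
    have hζ : Real.exp 1 * (2 * s) * (2 * (Δ : ℝ) ^ 2 / m) ≤ Real.exp (b - T) := by
      rw [Real.exp_sub, hbe, div_eq_mul_inv _ (Real.exp T), ← Real.exp_neg]
      calc Real.exp 1 * (2 * s) * (2 * (Δ : ℝ) ^ 2 / m)
          ≤ Real.exp 1 * (2 * (2 * (ε * n))) * (D ^ 2 / (2 * n)) := by
            apply mul_le_mul _ hqn hq0 (by positivity)
            apply mul_le_mul_of_nonneg_left _ (Real.exp_pos 1).le
            linarith
        _ = 2 * Real.exp 1 * D ^ 2 * ε := by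
            field_simp
    have h1 := sum_sets (V := V) s s5 ε T b rfl s1 _ (by positivity) hζ hT1 hb0
    refine h1.trans ?_
    rw [← hnn]
    have h2 : (n : ℝ) + 1 ≤ Real.exp (ε * n) := by
      have h3 := Real.pow_div_factorial_le_exp (ε * n) (by positivity) 2
      have h4 : ((2 : ℕ).factorial : ℝ) = 2 := by norm_num [Nat.factorial]
      rw [h4] at h3
      have h5 : (n : ℝ) + 1 ≤ (ε * n) ^ 2 / 2 := by
        have h6 : (ε * (n : ℝ)) ^ 2 = (ε ^ 2 * n) * n := by ring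
        rw [h6]
        have h7 : 16 * (n : ℝ) ≤ (ε ^ 2 * n) * n := mul_le_mul_of_nonneg_right q6 hn0.le
        linarith
      linarith
    have h3 : Real.exp (-(2 * (s : ℝ))) ≤ Real.exp (-(2 * (ε * n))) :=
      Real.exp_le_exp.2 (by linarith)
    calc ((n : ℝ) + 1) * Real.exp (-(2 * (s : ℝ))) ≤ Real.exp (ε * n) * Real.exp (-(2 * (ε * n))) :=
          mul_le_mul h2 h3 (Real.exp_pos _).le (Real.exp_pos _).le
      _ = Real.exp (-(ε * n)) := by
          rw [← Real.exp_add]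
          congr 1
          ring
  -- conclusion
  have hcover : (fam dd).filter (fun R => ¬ (Pool.Agent.J4H85.RP.Good δ (gr R) univ ∧
      Pool.Agent.J4H85.RP.Good δ (gr R)ᶜ univ)) ⊆ T1 ∪ T2 ∪ T3 := by
    intro R hR
    obtain ⟨hRf, hRg⟩ := mem_filter.1 hR
    obtain ⟨hRp, hdeg⟩ := (mem_fam dd R).1 hRf
    rw [mem_union, mem_union]
    by_contra hcon
    push Not at hcon
    obtain ⟨⟨c1, c2⟩, c3⟩ := hcon
    apply hRg
    have hsd : (s : ℝ) ≤ δ * n / 8 + 1 := by
      have h1 : ε * n ≤ δ / 16 * n := mul_le_mul_of_nonneg_right hεδ hn0.le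
      have h2 : 0 ≤ δ * n := by positivity
      linarith
    have hno : ¬ ∃ M : Finset V, (∀ x ∈ M, x ∈ (univ : Finset V) ∧ ¬ Rn (gr R) x) ∧
        s ≤ M.card := by
      rintro ⟨M, hM, hMs⟩
      rcases det2 R hRp s s5 M (fun x hx => (hM x hx).2) hMs with h | h
      · exact c1 ((hT1' R).2 ⟨hRf, h⟩)
      · have hb1 : ∀ x, dg R x ≤ Δ := fun x => (hdeg x).le.trans (hΔ x)
        have hb2 : ∀ x, 8 ≤ dg R x := fun x => (h8 x).trans (hdeg x).ge
        have hins : ∀ U : Finset V, s ≤ U.card → U.card ≤ 2 * s →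
            8 * (R ∩ ins U).card ≤ 9 * U.card := by
          intro U hU1 hU2
          by_contra hc
          push Not at hc
          exact c3 ((hT3' R).2 ⟨hRf, U, hU1, hU2, hc⟩)
        obtain ⟨I, g, hI, hok, hsub⟩ := twins_fam R hRp Δ hb1 (by omega) hb2 s i h hins i1
        exact c2 ((hT2' R).2 ⟨hRf, I, g, hI, hok, hsub⟩)
    refine ⟨Pool.Agent.J4H85.RP.good_of_few δ (gr R) univ s hsd q5 q8 hno,
      Pool.Agent.J4H85.RP.good_of_few δ (gr R)ᶜ univ s hsd q5 q8 ?_⟩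
    rintro ⟨M, hM, hMs⟩
    exact hno ⟨M, fun x hx => ⟨(hM x hx).1, fun hc => (hM x hx).2 (Rn_compl hc)⟩, hMs⟩
  have hfin : (((fam dd).filter (fun R => ¬ (Pool.Agent.J4H85.RP.Good δ (gr R) univ ∧
        Pool.Agent.J4H85.RP.Good δ (gr R)ᶜ univ))).card : ℝ) ≤
      T1.card + T2.card + T3.card := by
    have h1 := (card_le_card hcover).trans ((card_union_le _ _).trans
      (Nat.add_le_add_right (card_union_le T1 T2) _))
    exact_mod_cast h1
  refine hfin.trans ?_
  have h1 : Real.exp (-(n : ℝ)) ≤ Real.exp (-(ε * n)) := by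
    apply Real.exp_le_exp.2
    have : ε * n ≤ 1 * n := mul_le_mul_of_nonneg_right (by linarith) hn0.le
    linarith
  have h2 : Real.exp (-(ε * n)) = Real.exp (-(ε / 2 * n)) * Real.exp (-(ε / 2 * n)) := by
    rw [← Real.exp_add]
    congr 1
    ring
  have h3 : 3 * Real.exp (-(ε / 2 * n)) ≤ 1 := by
    have h4 : (3 : ℝ) ≤ Real.exp (ε / 2 * n) := by
      have := Real.add_one_le_exp (ε / 2 * n)
      linarith
    have h5 : Real.exp (ε / 2 * n) * Real.exp (-(ε / 2 * n)) = 1 := by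
      rw [← Real.exp_add, add_neg_cancel, Real.exp_zero]
    have h6 := Real.exp_pos (-(ε / 2 * n))
    calc 3 * Real.exp (-(ε / 2 * n)) ≤ Real.exp (ε / 2 * n) * Real.exp (-(ε / 2 * n)) :=
          mul_le_mul_of_nonneg_right h4 h6.le
      _ = 1 := h5
  have h4 : 3 * Real.exp (-(ε * n)) ≤ Real.exp (-(ε / 2 * n)) := by
    rw [h2]
    have h6 := Real.exp_pos (-(ε / 2 * n))
    calc 3 * (Real.exp (-(ε / 2 * n)) * Real.exp (-(ε / 2 * n))) =
          (3 * Real.exp (-(ε / 2 * n))) * Real.exp (-(ε / 2 * n)) := by ring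
      _ ≤ 1 * Real.exp (-(ε / 2 * n)) := mul_le_mul_of_nonneg_right h3 h6.le
      _ = _ := one_mul _
  calc (T1.card : ℝ) + T2.card + T3.card ≤ (3 * Real.exp (-(ε * n))) * (fam dd).card := by
        have h5 := mul_le_mul_of_nonneg_right h1 hF0
        linarith
    _ ≤ Real.exp (-(ε / 2 * n)) * (fam dd).card := mul_le_mul_of_nonneg_right h4 hF0

end Pool.Agent.J4H85.GD
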