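import Pool.Agent.J4H85.RP.Fin

set_option autoImplicit false

/-! Graphs with given degrees: switchings. -/

namespace Pool.Agent.J4H85.GD

open Finset Pool.Agent.Y395.RW

section

variable {V : Type} [Fintype V] [DecidableEq V]

/-- the degree of `x` in the graph with the edges `R` -/
def dg (R : Finset (Sym2 V)) (x : V) : ℕ := (R.filter (fun e => x ∈ e)).card

/-- the neighbours of `x` -/
def nb (R : Finset (Sym2 V)) (x : V) : Finset V := univ.filter (fun y => s(x, y) ∈ R)

theorem mem_nb (R : Finset (Sym2 V)) (x y : V) : y ∈ nb R x ↔ s(x, y) ∈ R := by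
  unfold nb
  rw [mem_filter]
  exact ⟨fun h => h.2, fun h => ⟨mem_univ _, h⟩⟩

theorem card_nb (R : Finset (Sym2 V)) (x : V) : (nb R x).card = dg R x := by
  unfold dg
  rw [← card_image_of_injective (nb R x) (f := fun y => s(x, y))
    (fun a b hab => Sym2.congr_right.1 hab)]
  congr 1
  ext e
  rw [mem_image, mem_filter]
  constructor
  · rintro ⟨y, hy, rfl⟩
    exact ⟨(mem_nb R x y).1 hy, Sym2.mem_mk_left x y⟩
  · rintro ⟨h1, h2⟩
    obtain ⟨y, rfl⟩ := h2
    exact ⟨y, (mem_nb R x y).2 h1, rfl⟩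

/-- the sum of the degrees -/
theorem sum_dg (R : Finset (Sym2 V)) (hR : R ⊆ pairs V) : ∑ x, dg R x = 2 * R.card := by
  unfold dg
  calc ∑ x, (R.filter (fun e => x ∈ e)).card
      = ∑ e ∈ R, (univ.filter (fun x => x ∈ e)).card := by
        simp only [card_filter]
        rw [sum_comm]
    _ = ∑ _e ∈ R, 2 := by
        apply sum_congr rfl
        intro e he
        have he' := hR he
        induction e using Sym2.ind with
        | _ a b =>
          rw [mem_pairs] at he'
          have : univ.filter (fun x => x ∈ s(a, b)) = {a, b} := by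
            ext x
            rw [mem_filter, mem_insert, mem_singleton, Sym2.mem_iff]
            exact ⟨fun h => h.2, fun h => ⟨mem_univ _, h⟩⟩
          rw [this, card_pair he']
    _ = 2 * R.card := by rw [sum_const, smul_eq_mul, mul_comm]

/-- the graphs with the degrees `dd` -/
def fam (dd : V → ℕ) : Finset (Finset (Sym2 V)) :=
  (pairs V).powerset.filter (fun R => ∀ x, dg R x = dd x)

theorem mem_fam (dd : V → ℕ) (R : Finset (Sym2 V)) :
    R ∈ fam dd ↔ R ⊆ pairs V ∧ ∀ x, dg R x = dd x := by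
  unfold fam
  rw [mem_filter, mem_powerset]

/-- the number of the graphs which contain `F` -/
def cF (dd : V → ℕ) (F : Finset (Sym2 V)) : ℕ := ((fam dd).filter (fun R => F ⊆ R)).card

/-- the switching -/
def sw (u v x y : V) (R : Finset (Sym2 V)) : Finset (Sym2 V) :=
  (R \ {s(u, v), s(x, y)}) ∪ {s(u, x), s(v, y)}

/-- the pairs which can be used -/
def gd (u v : V) (F R : Finset (Sym2 V)) : Finset (V × V) :=
  univ.filter (fun p => s(p.1, p.2) ∈ R ∧ s(p.1, p.2) ∉ insert s(u, v) F ∧ p.1 ≠ u ∧ p.1 ≠ v ∧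
    p.2 ≠ u ∧ p.2 ≠ v ∧ s(u, p.1) ∉ R ∧ s(v, p.2) ∉ R)

omit [Fintype V] in
theorem filter_pair_card (w a b c d : V) (hab : s(a, b) ≠ s(c, d)) :
    (({s(a, b), s(c, d)} : Finset (Sym2 V)).filter (fun e => w ∈ e)).card =
      (if w = a ∨ w = b then 1 else 0) + (if w = c ∨ w = d then 1 else 0) := by
  rw [card_filter, sum_pair hab]
  simp only [Sym2.mem_iff]

theorem sw_dg {u v x y : V} {R : Finset (Sym2 V)} (huv : u ≠ v) (hxy : x ≠ y) (hxu : x ≠ u)
    (hxv : x ≠ v) (hyu : y ≠ u) (hyv : y ≠ v) (h1 : s(u, v) ∈ R) (h2 : s(x, y) ∈ R)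
    (h3 : s(u, x) ∉ R) (h4 : s(v, y) ∉ R) (w : V) : dg (sw u v x y R) w = dg R w := by
  have hA : ({s(u, v), s(x, y)} : Finset (Sym2 V)) ⊆ R := by
    intro e he
    rw [mem_insert, mem_singleton] at he
    rcases he with rfl | rfl
    · exact h1
    · exact h2
  have n1 : s(u, v) ≠ s(x, y) := by
    intro h
    rcases Sym2.eq_iff.1 h with ⟨h, _⟩ | ⟨h, _⟩
    · exact hxu h.symm
    · exact hyu h.symm
  have n2 : s(u, x) ≠ s(v, y) := by
    intro h
    rcases Sym2.eq_iff.1 h with ⟨h, _⟩ | ⟨h, _⟩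
    · exact huv h
    · exact hyu h.symm
  have hd : Disjoint (R \ {s(u, v), s(x, y)}) ({s(u, x), s(v, y)} : Finset (Sym2 V)) := by
    rw [disjoint_left]
    intro e he he'
    have heR := (mem_sdiff.1 he).1
    rw [mem_insert, mem_singleton] at he'
    rcases he' with rfl | rfl
    · exact h3 heR
    · exact h4 heR
  have e1 : dg (sw u v x y R) w = ((R \ {s(u, v), s(x, y)}).filter (fun e => w ∈ e)).card +
      (({s(u, x), s(v, y)} : Finset (Sym2 V)).filter (fun e => w ∈ e)).card := by
    unfold dg sw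
    rw [filter_union, card_union_of_disjoint]
    exact disjoint_filter_filter hd
  have e2 : dg R w = ((R \ {s(u, v), s(x, y)}).filter (fun e => w ∈ e)).card +
      (({s(u, v), s(x, y)} : Finset (Sym2 V)).filter (fun e => w ∈ e)).card := by
    unfold dg
    rw [← card_union_of_disjoint, ← filter_union, sdiff_union_of_subset hA]
    exact disjoint_filter_filter disjoint_sdiff_self_left
  rw [e1, e2, filter_pair_card w u x v y n2, filter_pair_card w u v x y n1]
  by_cases c1 : w = u
  · subst c1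
    simp [huv, hxu.symm, hyu.symm]
  · by_cases c2 : w = v
    · subst c2
      simp [c1, hxv.symm, hyv.symm]
    · by_cases c3 : w = x
      · subst c3
        simp [c1, c2, hxy]
      · by_cases c4 : w = y
        · subst c4
          simp [c1, c2, c3]
        · simp [c1, c2, c3, c4]

omit [Fintype V] in
theorem sw_inv {u v x y : V} {R : Finset (Sym2 V)} (h1 : s(u, v) ∈ R) (h2 : s(x, y) ∈ R)
    (h3 : s(u, x) ∉ R) (h4 : s(v, y) ∉ R) :
    R = (sw u v x y R \ {s(u, x), s(v, y)}) ∪ {s(u, v), s(x, y)} := by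
  ext e
  unfold sw
  simp only [mem_union, mem_sdiff, mem_insert, mem_singleton]
  constructor
  · intro he
    by_cases c : e = s(u, v) ∨ e = s(x, y)
    · exact Or.inr c
    · left
      refine ⟨Or.inl ⟨he, c⟩, ?_⟩
      rintro (rfl | rfl)
      · exact h3 he
      · exact h4 he
  · rintro (⟨⟨h, _⟩ | h, h'⟩ | (rfl | rfl))
    · exact h
    · exact absurd h h'
    · exact h1
    · exact h2

/-- the number of the usable pairs -/
theorem card_gd (dd : V → ℕ) (Δ : ℕ) (hΔ : ∀ x, dd x ≤ Δ) (u v : V) (F R : Finset (Sym2 V))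
    (hR : R ∈ fam dd) :
    2 * R.card ≤ (gd u v F R).card + 2 * (F.card + 1) + 4 * Δ + 2 * Δ ^ 2 := by
  obtain ⟨hRp, hdeg⟩ := (mem_fam dd R).1 hR
  have hnb : ∀ x, (nb R x).card ≤ Δ := fun x => by
    rw [card_nb, hdeg]
    exact hΔ x
  -- all directed edges
  let P : Finset (V × V) := univ.sigma (fun x => nb R x) |>.map
    ⟨fun p => (p.1, p.2), by
      rintro ⟨a, b⟩ ⟨c, d⟩ h
      simpa using h⟩
  have hPc : P.card = 2 * R.card := by
    rw [card_map, card_sigma, ← sum_dg R hRp]
    exact sum_congr rfl fun x _ => card_nb R x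
  have hPm : ∀ p : V × V, p ∈ P ↔ s(p.1, p.2) ∈ R := by
    rintro ⟨a, b⟩
    rw [mem_map]
    constructor
    · rintro ⟨⟨c, d⟩, h1, h2⟩
      have h3 := (mem_sigma.1 h1).2
      have h4 : (c, d) = (a, b) := h2
      obtain ⟨rfl, rfl⟩ := Prod.mk.inj h4
      exact (mem_nb R _ _).1 h3
    · intro h
      exact ⟨⟨a, b⟩, mem_sigma.2 ⟨mem_univ _, (mem_nb R _ _).2 h⟩, rfl⟩
  -- the unusable pairs
  let B1 : Finset (V × V) := univ.filter (fun p => s(p.1, p.2) ∈ insert s(u, v) F)
  let B2 : Finset (V × V) := ((nb R u).image (fun y => (u, y))) ∪ ((nb R v).image (fun y => (v, y)))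
    ∪ ((nb R u).image (fun y => (y, u))) ∪ ((nb R v).image (fun y => (y, v)))
  let B3 : Finset (V × V) := (nb R u).biUnion (fun x => (nb R x).image (fun y => (x, y)))
  let B4 : Finset (V × V) := (nb R v).biUnion (fun y => (nb R y).image (fun x => (x, y)))
  have hB1 : B1.card ≤ 2 * (F.card + 1) := by
    have h1 : B1 ⊆ (insert s(u, v) F).biUnion (fun e =>
        (univ : Finset (V × V)).filter (fun p => s(p.1, p.2) = e)) := by
      intro p hp
      exact mem_biUnion.2 ⟨_, (mem_filter.1 hp).2, mem_filter.2 ⟨mem_univ _, rfl⟩⟩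
    have h2 : ∀ e : Sym2 V, ((univ : Finset (V × V)).filter (fun p => s(p.1, p.2) = e)).card
        ≤ 2 := by
      intro e
      induction e using Sym2.ind with
      | _ a b =>
        refine (card_le_card (t := {(a, b), (b, a)}) ?_).trans card_le_two
        rintro ⟨c, d⟩ hp
        have hp' := (mem_filter.1 hp).2
        rw [mem_insert, mem_singleton]
        rcases Sym2.eq_iff.1 hp' with ⟨h, h'⟩ | ⟨h, h'⟩
        · left
          exact Prod.ext h h'
        · right
          exact Prod.ext h h'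
    calc B1.card ≤ _ := card_le_card h1
      _ ≤ ∑ e ∈ insert s(u, v) F, ((univ : Finset (V × V)).filter
          (fun p => s(p.1, p.2) = e)).card := card_biUnion_le
      _ ≤ ∑ _e ∈ insert s(u, v) F, 2 := sum_le_sum fun e _ => h2 e
      _ = (insert s(u, v) F).card * 2 := by rw [sum_const, smul_eq_mul]
      _ ≤ (F.card + 1) * 2 := Nat.mul_le_mul_right _ (card_insert_le _ _)
      _ = _ := mul_comm _ _
  have hB2 : B2.card ≤ 4 * Δ := by
    have a1 := card_union_le (((nb R u).image (fun y => (u, y))) ∪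
      ((nb R v).image (fun y => (v, y))) ∪ ((nb R u).image (fun y => (y, u))))
      ((nb R v).image (fun y => (y, v)))
    have a2 := card_union_le (((nb R u).image (fun y => (u, y))) ∪
      ((nb R v).image (fun y => (v, y)))) ((nb R u).image (fun y => (y, u)))
    have a3 := card_union_le ((nb R u).image (fun y => (u, y))) ((nb R v).image (fun y => (v, y)))
    have b1 : ((nb R u).image (fun y => (u, y))).card ≤ Δ := card_image_le.trans (hnb u)
    have b2 : ((nb R v).image (fun y => (v, y))).card ≤ Δ := card_image_le.trans (hnb v)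
    have b3 : ((nb R u).image (fun y => (y, u))).card ≤ Δ := card_image_le.trans (hnb u)
    have b4 : ((nb R v).image (fun y => (y, v))).card ≤ Δ := card_image_le.trans (hnb v)
    have : B2.card ≤ _ := a1
    omega
  have hB3 : B3.card ≤ Δ ^ 2 := by
    calc B3.card ≤ ∑ x ∈ nb R u, ((nb R x).image (fun y => (x, y))).card := card_biUnion_le
      _ ≤ ∑ _x ∈ nb R u, Δ := sum_le_sum fun x _ => card_image_le.trans (hnb x)
      _ = (nb R u).card * Δ := by rw [sum_const, smul_eq_mul]
      _ ≤ Δ * Δ := Nat.mul_le_mul_right _ (hnb u)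
      _ = Δ ^ 2 := by ring
  have hB4 : B4.card ≤ Δ ^ 2 := by
    calc B4.card ≤ ∑ y ∈ nb R v, ((nb R y).image (fun x => (x, y))).card := card_biUnion_le
      _ ≤ ∑ _y ∈ nb R v, Δ := sum_le_sum fun y _ => card_image_le.trans (hnb y)
      _ = (nb R v).card * Δ := by rw [sum_const, smul_eq_mul]
      _ ≤ Δ * Δ := Nat.mul_le_mul_right _ (hnb v)
      _ = Δ ^ 2 := by ring
  have hsub : P ⊆ gd u v F R ∪ B1 ∪ B2 ∪ B3 ∪ B4 := by
    rintro ⟨x, y⟩ hp
    have hxy := (hPm _).1 hp
    dsimp only at hxy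
    by_contra hcon
    rw [mem_union, mem_union, mem_union, mem_union] at hcon
    push Not at hcon
    obtain ⟨⟨⟨⟨c0, c1⟩, c2⟩, c3⟩, c4⟩ := hcon
    have hyx : s(y, x) ∈ R := by rw [Sym2.eq_swap]; exact hxy
    apply c0
    unfold gd
    rw [mem_filter]
    refine ⟨mem_univ _, hxy, fun h => c1 (mem_filter.2 ⟨mem_univ _, h⟩), ?_, ?_, ?_, ?_, ?_, ?_⟩
    · intro h
      dsimp only at h
      apply c2
      rw [h] at hxy ⊢
      simp only [B2, mem_union, mem_image, mem_nb]
      exact Or.inl (Or.inl (Or.inl ⟨y, hxy, rfl⟩))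
    · intro h
      dsimp only at h
      apply c2
      rw [h] at hxy ⊢
      simp only [B2, mem_union, mem_image, mem_nb]
      exact Or.inl (Or.inl (Or.inr ⟨y, hxy, rfl⟩))
    · intro h
      dsimp only at h
      apply c2
      rw [h] at hyx ⊢
      simp only [B2, mem_union, mem_image, mem_nb]
      exact Or.inl (Or.inr ⟨x, hyx, rfl⟩)
    · intro h
      dsimp only at h
      apply c2
      rw [h] at hyx ⊢
      simp only [B2, mem_union, mem_image, mem_nb]
      exact Or.inr ⟨x, hyx, rfl⟩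
    · intro h
      exact c3 (mem_biUnion.2 ⟨x, (mem_nb R u x).2 h, mem_image.2
        ⟨y, (mem_nb R x y).2 hxy, rfl⟩⟩)
    · intro h
      exact c4 (mem_biUnion.2 ⟨y, (mem_nb R v y).2 h, mem_image.2
        ⟨x, (mem_nb R y x).2 hyx, rfl⟩⟩)
  have u1 := card_union_le (gd u v F R ∪ B1 ∪ B2 ∪ B3) B4
  have u2 := card_union_le (gd u v F R ∪ B1 ∪ B2) B3
  have u3 := card_union_le (gd u v F R ∪ B1) B2
  have u4 := card_union_le (gd u v F R) B1
  have := card_le_card hsub
  omega

/-- one step -/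
theorem step (dd : V → ℕ) (Δ m : ℕ) (hΔ : ∀ x, dd x ≤ Δ) (hm : ∑ x, dd x = 2 * m)
    (F : Finset (Sym2 V)) (e : Sym2 V) (heF : e ∉ F)
    (hF : 4 * (F.card + 1) + 8 * Δ + 4 * Δ ^ 2 ≤ 3 * m) :
    cF dd (insert e F) * m ≤ 2 * Δ ^ 2 * cF dd F := by
  induction e using Sym2.ind with
  | _ u v =>
  by_cases huv : u = v
  · subst huv
    have : cF dd (insert s(u, u) F) = 0 := by
      unfold cF
      rw [card_eq_zero, filter_eq_empty_iff]
      intro R hR hsub
      have h1 := ((mem_fam dd R).1 hR).1 (hsub (mem_insert_self _ _))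
      exact (mem_pairs u u).1 h1 rfl
    rw [this, zero_mul]
    exact Nat.zero_le _
  set A := (fam dd).filter (fun R => insert s(u, v) F ⊆ R) with hA
  set B := (fam dd).filter (fun R => F ⊆ R) with hB
  let T1 : Finset (Σ _ : Finset (Sym2 V), V × V) := A.sigma (fun R => gd u v F R)
  let T2 : Finset (Σ _ : Finset (Sym2 V), V × V) := B.sigma (fun R => nb R u ×ˢ nb R v)
  have h1 : A.card * m ≤ 2 * T1.card := by
    rw [card_sigma, mul_sum]
    calc A.card * m = ∑ _R ∈ A, m := by rw [sum_const, smul_eq_mul]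
      _ ≤ ∑ R ∈ A, 2 * (gd u v F R).card := by
          apply sum_le_sum
          intro R hR
          have hR' := (mem_filter.1 hR).1
          have h2 := card_gd dd Δ hΔ u v F R hR'
          have h3 : R.card = m := by
            obtain ⟨h4, h5⟩ := (mem_fam dd R).1 hR'
            have h6 := sum_dg R h4
            rw [sum_congr rfl (fun x _ => h5 x), hm] at h6
            omega
          rw [h3] at h2
          omega
  have h2 : T2.card ≤ Δ ^ 2 * B.card := by
    rw [card_sigma]
    calc ∑ R ∈ B, (nb R u ×ˢ nb R v).card ≤ ∑ _R ∈ B, Δ ^ 2 := by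
          apply sum_le_sum
          intro R hR
          have h5 := ((mem_fam dd R).1 (mem_filter.1 hR).1).2
          rw [card_product, card_nb, card_nb, h5, h5, sq]
          exact Nat.mul_le_mul (hΔ u) (hΔ v)
      _ = Δ ^ 2 * B.card := by rw [sum_const, smul_eq_mul, mul_comm]
  have h3 : T1.card ≤ T2.card := by
    apply card_le_card_of_injOn (fun t => ⟨sw u v t.2.1 t.2.2 t.1, t.2⟩)
    · rintro ⟨R, x, y⟩ ht
      obtain ⟨hRA, hg⟩ := mem_sigma.1 (mem_coe.1 ht)
      obtain ⟨hRf, hsub⟩ := mem_filter.1 hRA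
      obtain ⟨hRp, hdeg⟩ := (mem_fam dd R).1 hRf
      dsimp only at hg
      unfold gd at hg
      rw [mem_filter] at hg
      obtain ⟨-, g1, g2, g3, g4, g5, g6, g7, g8⟩ := hg
      dsimp only at g1 g2 g3 g4 g5 g6 g7 g8
      have hxy : x ≠ y := (mem_pairs x y).1 (hRp g1)
      have huvR : s(u, v) ∈ R := hsub (mem_insert_self _ _)
      rw [mem_coe, mem_sigma]
      dsimp only
      refine ⟨?_, ?_⟩
      · rw [hB, mem_filter, mem_fam]
        refine ⟨⟨?_, ?_⟩, ?_⟩
        · intro e he
          unfold sw at he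
          simp only [mem_union, mem_sdiff, mem_insert, mem_singleton] at he
          rcases he with ⟨he, _⟩ | rfl | rfl
          · exact hRp he
          · rw [mem_pairs]
            exact fun h => g3 h.symm
          · rw [mem_pairs]
            exact fun h => g6 h.symm
        · intro w
          rw [sw_dg huv hxy g3 g4 g5 g6 huvR g1 g7 g8 w]
          exact hdeg w
        · intro e he
          unfold sw
          simp only [mem_union, mem_sdiff, mem_insert, mem_singleton]
          left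
          refine ⟨hsub (mem_insert_of_mem he), ?_⟩
          rintro (rfl | rfl)
          · exact heF he
          · exact g2 (mem_insert_of_mem he)
      · rw [mem_product, mem_nb, mem_nb]
        unfold sw
        simp
    · rintro ⟨R, x, y⟩ ht ⟨R', x', y'⟩ ht' hh
      obtain ⟨hRA, hg⟩ := mem_sigma.1 (mem_coe.1 ht)
      obtain ⟨hRA', hg'⟩ := mem_sigma.1 (mem_coe.1 ht')
      dsimp only at hg hg' hh
      unfold gd at hg hg'
      rw [mem_filter] at hg hg'
      obtain ⟨-, g1, g2, g3, g4, g5, g6, g7, g8⟩ := hg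
      obtain ⟨-, k1, k2, k3, k4, k5, k6, k7, k8⟩ := hg'
      have h5 : (x, y) = (x', y') := by
        have := congrArg Sigma.snd hh
        exact this
      obtain ⟨rfl, rfl⟩ := Prod.mk.inj h5
      have h6 : sw u v x y R = sw u v x y R' := congrArg Sigma.fst hh
      have i1 := sw_inv ((mem_filter.1 hRA).2 (mem_insert_self _ _)) g1 g7 g8
      have i2 := sw_inv ((mem_filter.1 hRA').2 (mem_insert_self _ _)) k1 k7 k8
      dsimp only at i1 i2
      rw [h6] at i1
      have h7 : R = R' := i1.trans i2.symm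
      rw [h7]
  have hcA : cF dd (insert s(u, v) F) = A.card := rfl
  have hcB : cF dd F = B.card := rfl
  rw [hcA, hcB]
  calc A.card * m ≤ 2 * T1.card := h1
    _ ≤ 2 * (Δ ^ 2 * B.card) := Nat.mul_le_mul_left _ (h3.trans h2)
    _ = _ := by ring

/-- few graphs contain a given set of pairs -/
theorem cF_le (dd : V → ℕ) (Δ m : ℕ) (hΔ : ∀ x, dd x ≤ Δ) (hm : ∑ x, dd x = 2 * m) (hm0 : 0 < m)
    (F : Finset (Sym2 V)) (hF : 4 * F.card + 8 * Δ + 4 * Δ ^ 2 ≤ 3 * m) :
    (cF dd F : ℝ) ≤ (2 * (Δ : ℝ) ^ 2 / m) ^ F.card * (fam dd).card := by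
  induction F using Finset.induction_on with
  | empty =>
    rw [card_empty, pow_zero, one_mul]
    have : cF dd ∅ ≤ (fam dd).card := card_le_card (filter_subset _ _)
    exact_mod_cast this
  | insert e F he ih =>
    rw [card_insert_of_notMem he] at hF ⊢
    have h1 := ih (by omega)
    have h2 := step dd Δ m hΔ hm F e he (by omega)
    have hm' : (0 : ℝ) < m := by exact_mod_cast hm0
    have h3 : (cF dd (insert e F) : ℝ) * m ≤ 2 * (Δ : ℝ) ^ 2 * cF dd F := by exact_mod_cast h2
    have h4 : (cF dd (insert e F) : ℝ) ≤ 2 * (Δ : ℝ) ^ 2 / m * cF dd F := by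
      rw [div_mul_eq_mul_div, le_div_iff₀ hm']
      exact h3
    calc (cF dd (insert e F) : ℝ) ≤ 2 * (Δ : ℝ) ^ 2 / m * cF dd F := h4
      _ ≤ 2 * (Δ : ℝ) ^ 2 / m * ((2 * (Δ : ℝ) ^ 2 / m) ^ F.card * (fam dd).card) :=
          mul_le_mul_of_nonneg_left h1 (by positivity)
      _ = (2 * (Δ : ℝ) ^ 2 / m) ^ (F.card + 1) * (fam dd).card := by ring

end

end Pool.Agent.J4H85.GD
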